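import Mathlib

set_option autoImplicit false

open Finset ComplexConjugate

namespace Pool.Agent.Helper547.Alpha

/-- one dimensional moments of a finite sample `w` -/
structure Mom {κ : Type} [Fintype κ] (w : κ → ℂ) (c : ℂ) : Prop where
  s0 : (Fintype.card κ : ℂ) ≠ 0
  s1 : ∑ k, w k = 0
  s1' : ∑ k, conj (w k) = 0
  s2 : ∑ k, w k * w k = 0
  s2' : ∑ k, conj (w k) * conj (w k) = 0
  s11 : ∑ k, w k * conj (w k) = Fintype.card κ
  s21 : ∑ k, w k * w k * conj (w k) = 0
  s12 : ∑ k, w k * conj (w k) * conj (w k) = 0
  s22 : ∑ k, w k * w k * conj (w k) * conj (w k) = c * Fintype.card κ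

section
variable {κ : Type} [Fintype κ] {w : κ → ℂ} {c : ℂ} {n : ℕ}

/-- the coordinate sum -/
noncomputable def gg (w : κ → ℂ) (l j i k d : Fin n) : ℂ :=
  ∑ t : κ, (if d = l then w t else 1) * (if d = j then w t else 1) *
    (if d = i then conj (w t) else 1) * (if d = k then conj (w t) else 1)

lemma sum_eq_prod (w : κ → ℂ) (l j i k : Fin n) :
    ∑ ω : Fin n → κ, w (ω l) * w (ω j) * conj (w (ω i)) * conj (w (ω k)) =
      ∏ d, gg w l j i k d := by
  unfold gg
  rw [Finset.prod_univ_sum]
  rw [Fintype.piFinset_univ]
  apply Finset.sum_congr rfl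
  intro ω _
  rw [Finset.prod_mul_distrib, Finset.prod_mul_distrib, Finset.prod_mul_distrib]
  simp

lemma gg_other {l j i k d : Fin n} (h1 : d ≠ l) (h2 : d ≠ j) (h3 : d ≠ i) (h4 : d ≠ k) :
    gg w l j i k d = Fintype.card κ := by
  simp [gg, h1, h2, h3, h4]

lemma sum_four (h : Mom w c) (l j i k : Fin n) :
    ∑ ω : Fin n → κ, w (ω l) * w (ω j) * conj (w (ω i)) * conj (w (ω k)) =
      (Fintype.card κ : ℂ) ^ n *
        ((if l = i ∧ j = k then 1 else 0) + (if l = k ∧ j = i then 1 else 0) +
          (if l = j ∧ l = i ∧ l = k then c - 2 else 0)) := by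
  rw [sum_eq_prod]
  by_cases hlj : l = j
  · subst hlj
    by_cases hi : l = i
    · subst hi
      by_cases hk : l = k
      · subst hk
        have h1 : gg w l l l l l = c * Fintype.card κ := by
          simp only [gg, if_true]; exact h.s22
        have h2 : ∀ d : Fin n, d ≠ l → gg w l l l l d = Fintype.card κ := fun d hd =>
          gg_other hd hd hd hd
        rw [← Finset.mul_prod_erase Finset.univ _ (Finset.mem_univ l), h1]
        rw [Finset.prod_congr rfl (fun d hd => h2 d (Finset.ne_of_mem_erase hd))]
        rw [Finset.prod_const, Finset.card_erase_of_mem (Finset.mem_univ l), Finset.card_univ,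
          Fintype.card_fin]
        have hn : n = (n - 1) + 1 := by
          have := l.pos; omega
        simp only [and_self, if_true]
        conv_rhs => rw [hn, pow_succ]
        ring
      · rw [Finset.prod_eq_zero (Finset.mem_univ l)]
        · simp [hk]
        · simp only [gg, if_true, if_neg hk, mul_one]; exact h.s21
    · rw [Finset.prod_eq_zero (Finset.mem_univ l)]
      · by_cases hk : l = k
        · simp [hi]
        · simp [hi, hk]
      · by_cases hk : l = k
        · simp only [gg, if_true, if_neg hi, if_pos hk, mul_one]; exact h.s21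
        · simp only [gg, if_true, if_neg hi, if_neg hk, mul_one]; exact h.s2
  · by_cases h1 : l = i ∧ j = k
    · obtain ⟨rfl, rfl⟩ := h1
      have h2 : ∀ d : Fin n, gg w l j l j d = Fintype.card κ := by
        intro d
        by_cases hd : d = l
        · subst hd
          simp only [gg, if_true, if_neg hlj, mul_one]; exact h.s11
        · by_cases hd' : d = j
          · subst hd'
            simp only [gg, if_true, if_neg hd, mul_one, one_mul]; exact h.s11
          · exact gg_other hd hd' hd hd'
      rw [Finset.prod_congr rfl (fun d _ => h2 d)]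
      simp [hlj]
    · by_cases h2 : l = k ∧ j = i
      · obtain ⟨rfl, rfl⟩ := h2
        have h3 : ∀ d : Fin n, gg w l j j l d = Fintype.card κ := by
          intro d
          by_cases hd : d = l
          · subst hd
            simp only [gg, if_true, if_neg hlj, mul_one]; exact h.s11
          · by_cases hd' : d = j
            · subst hd'
              simp only [gg, if_true, if_neg hd, mul_one, one_mul]; exact h.s11
            · exact gg_other hd hd' hd' hd
        rw [Finset.prod_congr rfl (fun d _ => h3 d)]
        simp [hlj]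
      · have hz : (Fintype.card κ : ℂ) ^ n *
            ((if l = i ∧ j = k then 1 else 0) + (if l = k ∧ j = i then 1 else 0) +
              (if l = j ∧ l = i ∧ l = k then c - 2 else 0)) = 0 := by
          simp [h1, h2, hlj]
        rw [hz]
        -- find the vanishing coordinate
        have hjl : j ≠ l := fun h => hlj h.symm
        by_cases ha : l = i
        · have hjk : j ≠ k := fun h => h1 ⟨ha, h⟩
          have hji : j ≠ i := fun h => hlj (ha.trans h.symm)
          apply Finset.prod_eq_zero (Finset.mem_univ j)
          simp only [gg, if_true, if_neg hjl, if_neg hji, if_neg hjk, mul_one, one_mul]; exact h.s1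
        · by_cases hb : l = k
          · have hji : j ≠ i := fun h => h2 ⟨hb, h⟩
            have hjk : j ≠ k := fun h => hlj (hb.trans h.symm)
            apply Finset.prod_eq_zero (Finset.mem_univ j)
            simp only [gg, if_true, if_neg hjl, if_neg hji, if_neg hjk, mul_one, one_mul]; exact h.s1
          · apply Finset.prod_eq_zero (Finset.mem_univ l)
            simp only [gg, if_true, if_neg hlj, if_neg ha, if_neg hb, mul_one]; exact h.s1

lemma sum_two (h : Mom w c) (i j : Fin n) :
    ∑ ω : Fin n → κ, w (ω i) * conj (w (ω j)) =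
      (Fintype.card κ : ℂ) ^ n * (if i = j then 1 else 0) := by
  have e : ∑ ω : Fin n → κ, w (ω i) * conj (w (ω j)) =
      ∏ d : Fin n, ∑ t : κ, (if d = i then w t else 1) * (if d = j then conj (w t) else 1) := by
    rw [Finset.prod_univ_sum, Fintype.piFinset_univ]
    apply Finset.sum_congr rfl
    intro ω _
    rw [Finset.prod_mul_distrib]
    simp
  rw [e]
  by_cases hij : i = j
  · subst hij
    have h2 : ∀ d : Fin n, (∑ t : κ, (if d = i then w t else 1) * (if d = i then conj (w t) else 1))
        = Fintype.card κ := by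
      intro d
      by_cases hd : d = i
      · simp only [if_pos hd]; exact h.s11
      · simp [hd]
    rw [Finset.prod_congr rfl (fun d _ => h2 d)]
    simp
  · rw [Finset.prod_eq_zero (Finset.mem_univ i)]
    · simp [hij]
    · simp only [if_true, if_neg hij, mul_one]; exact h.s1

end

/-- Gaussian-like sample -/
noncomputable def wG : Fin 8 → ℂ :=
  ![(Real.sqrt 2 : ℝ), (Real.sqrt 2 : ℝ) * Complex.I, -(Real.sqrt 2 : ℝ), -((Real.sqrt 2 : ℝ) * Complex.I),
    0, 0, 0, 0]

/-- fourth roots of unity -/
noncomputable def wT : Fin 4 → ℂ := ![1, Complex.I, -1, -Complex.I]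

lemma mom_wT : Mom wT 1 := by
  constructor <;> simp [wT, Fin.sum_univ_four] <;> ring_nf

lemma sqrt2_mul : ((Real.sqrt 2 : ℝ) : ℂ) * ((Real.sqrt 2 : ℝ) : ℂ) = 2 := by
  rw [← Complex.ofReal_mul, Real.mul_self_sqrt (by norm_num)]; norm_num

lemma mom_wG : Mom wG 2 := by
  have h := sqrt2_mul
  have hI := Complex.I_mul_I
  have h4 : ((Real.sqrt 2 : ℝ) : ℂ) * ((Real.sqrt 2 : ℝ) : ℂ) * ((Real.sqrt 2 : ℝ) : ℂ) *
    ((Real.sqrt 2 : ℝ) : ℂ) = 4 := by
    calc _ = (((Real.sqrt 2 : ℝ) : ℂ) * ((Real.sqrt 2 : ℝ) : ℂ)) *
          (((Real.sqrt 2 : ℝ) : ℂ) * ((Real.sqrt 2 : ℝ) : ℂ)) := by ring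
      _ = 4 := by rw [h]; norm_num
  constructor
  · simp
  · simp [wG, Fin.sum_univ_eight]
  · simp [wG, Fin.sum_univ_eight]
  · simp only [wG, Fin.sum_univ_eight, Matrix.cons_val]
    linear_combination (2 * (1 + Complex.I * Complex.I)) * h + 4 * hI
  · simp only [wG, Fin.sum_univ_eight, Matrix.cons_val, map_mul, map_neg, Complex.conj_I,
      Complex.conj_ofReal, map_zero]
    linear_combination (2 * (1 + Complex.I * Complex.I)) * h + 4 * hI
  · simp only [wG, Fin.sum_univ_eight, Matrix.cons_val, map_mul, map_neg, Complex.conj_I,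
      Complex.conj_ofReal, map_zero, Fintype.card_fin]
    push_cast
    linear_combination (2 * (1 - Complex.I * Complex.I)) * h - 4 * hI
  · simp only [wG, Fin.sum_univ_eight, Matrix.cons_val, map_mul, map_neg, Complex.conj_I,
      Complex.conj_ofReal, map_zero]
    ring
  · simp only [wG, Fin.sum_univ_eight, Matrix.cons_val, map_mul, map_neg, Complex.conj_I,
      Complex.conj_ofReal, map_zero]
    ring
  · simp only [wG, Fin.sum_univ_eight, Matrix.cons_val, map_mul, map_neg, Complex.conj_I,
      Complex.conj_ofReal, map_zero, Fintype.card_fin]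
    push_cast
    linear_combination (2 * (1 + (Complex.I * Complex.I) * (Complex.I * Complex.I))) * h4 +
      8 * (Complex.I * Complex.I - 1) * hI

end Pool.Agent.Helper547.Alpha
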