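import Mathlib
import Pool.Agent.Helper547.Alpha.Moments

set_option autoImplicit false

open Finset ComplexConjugate

namespace Pool.Agent.Helper547.Alpha

lemma Mom.conj {κ : Type} [Fintype κ] {w : κ → ℂ} {c : ℂ} (h : Mom w c) :
    Mom (fun k => conj (w k)) c where
  s0 := h.s0
  s1 := h.s1'
  s1' := by simpa using h.s1
  s2 := h.s2'
  s2' := by simpa using h.s2
  s11 := by
    have := h.s11
    simp only [Complex.conj_conj]
    rw [← this]
    exact Finset.sum_congr rfl fun k _ => mul_comm _ _
  s21 := by
    have := h.s12
    simp only [Complex.conj_conj]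
    rw [← this]
    exact Finset.sum_congr rfl fun k _ => by ring
  s12 := by
    have := h.s21
    simp only [Complex.conj_conj]
    rw [← this]
    exact Finset.sum_congr rfl fun k _ => by ring
  s22 := by
    have := h.s22
    simp only [Complex.conj_conj]
    rw [← this]
    exact Finset.sum_congr rfl fun k _ => by ring

section
variable {κ : Type} [Fintype κ] {w : κ → ℂ} {c : ℂ} {n : ℕ}

lemma sum_tensor {V : Type*} [AddCommGroup V] [Module ℂ V] (h : Mom w c)
    (X : Fin n → Fin n → Fin n → Fin n → V) :
    ∑ ω : Fin n → κ, ∑ l, ∑ i, ∑ j, ∑ k,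
        (w (ω l) * w (ω j) * conj (w (ω i)) * conj (w (ω k))) • X l i j k =
      (Fintype.card κ : ℂ) ^ n • (∑ l, ∑ j, X l l j j + ∑ l, ∑ j, X l j j l +
        (c - 2) • ∑ l, X l l l l) := by
  have e : ∑ ω : Fin n → κ, ∑ l, ∑ i, ∑ j, ∑ k,
        (w (ω l) * w (ω j) * conj (w (ω i)) * conj (w (ω k))) • X l i j k =
      ∑ l, ∑ i, ∑ j, ∑ k, (∑ ω : Fin n → κ,
        (w (ω l) * w (ω j) * conj (w (ω i)) * conj (w (ω k)))) • X l i j k := by
    rw [Finset.sum_comm]
    refine Finset.sum_congr rfl fun l _ => ?_
    rw [Finset.sum_comm]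
    refine Finset.sum_congr rfl fun i _ => ?_
    rw [Finset.sum_comm]
    refine Finset.sum_congr rfl fun j _ => ?_
    rw [Finset.sum_comm]
    refine Finset.sum_congr rfl fun k _ => ?_
    rw [Finset.sum_smul]
  rw [e]
  have e2 : ∀ l i j k : Fin n, (∑ ω : Fin n → κ,
        (w (ω l) * w (ω j) * conj (w (ω i)) * conj (w (ω k)))) • X l i j k =
      (Fintype.card κ : ℂ) ^ n • ((if l = i then (if j = k then X l i j k else 0) else 0) +
        (if l = k then (if j = i then X l i j k else 0) else 0) +
        (if l = j then (if l = i then (if l = k then (c - 2) • X l i j k else 0) else 0) else 0)) := by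
    intro l i j k
    rw [sum_four h, mul_smul]
    congr 1
    rw [add_smul, add_smul]
    congr 1
    · congr 1
      · by_cases h1 : l = i <;> by_cases h2 : j = k <;> simp [h1, h2]
      · by_cases h1 : l = k <;> by_cases h2 : j = i <;> simp [h1, h2]
    · by_cases h1 : l = j
      · by_cases h2 : l = i
        · by_cases h3 : l = k
          · rw [if_pos ⟨h1, h2, h3⟩, if_pos h1, if_pos h2, if_pos h3]
          · simp [h3]
        · simp [h2]
      · simp [h1]
  simp only [e2]
  simp only [← Finset.smul_sum, Finset.sum_add_distrib]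
  congr 1
  congr 1
  · congr 1
    · refine Finset.sum_congr rfl fun l _ => ?_
      rw [Finset.sum_eq_single l]
      · refine Finset.sum_congr rfl fun j _ => ?_
        rw [Finset.sum_eq_single j] <;> simp +contextual [eq_comm]
      · intro i _ hi
        refine Finset.sum_eq_zero fun j _ => Finset.sum_eq_zero fun k _ => ?_
        rw [if_neg (Ne.symm hi)]
      · simp
    · refine Finset.sum_congr rfl fun l _ => ?_
      rw [Finset.sum_comm]
      refine Finset.sum_congr rfl fun j _ => ?_
      rw [Finset.sum_eq_single j]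
      · rw [Finset.sum_eq_single l] <;> simp +contextual [eq_comm]
      · intro i _ hi
        refine Finset.sum_eq_zero fun k _ => ?_
        by_cases h1 : l = k <;> simp [h1, Ne.symm hi]
      · simp
  · rw [Finset.smul_sum]
    refine Finset.sum_congr rfl fun l _ => ?_
    rw [Finset.sum_eq_single l]
    · rw [Finset.sum_eq_single l]
      · rw [Finset.sum_eq_single l] <;> simp +contextual [eq_comm]
      · intro j _ hj
        refine Finset.sum_eq_zero fun k _ => ?_
        rw [if_neg (Ne.symm hj)]
      · simp
    · intro i _ hi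
      refine Finset.sum_eq_zero fun j _ => Finset.sum_eq_zero fun k _ => ?_
      rw [if_neg (Ne.symm hi)]
      simp
    · simp

end

end Pool.Agent.Helper547.Alpha
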