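import Mathlib
import Pool.Agent.Helper547.Alpha.Avg

set_option autoImplicit false

open Finset ComplexConjugate

namespace Pool.Agent.Helper547.Alpha

section
variable {κ : Type} [Fintype κ] {w : κ → ℂ} {c : ℂ} {n : ℕ}
variable {K : Type*} [NormedAddCommGroup K] [InnerProductSpace ℂ K]

lemma normsq_expand (z : Fin n → ℂ) (y : Fin n → K) :
    ((‖∑ i, z i • y i‖ ^ 2 : ℝ) : ℂ) = ∑ i, ∑ j, (z j * conj (z i)) * inner ℂ (y i) (y j) := by
  have h := inner_self_eq_norm_sq_to_K (𝕜 := ℂ) (∑ i, z i • y i)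
  rw [sum_inner] at h
  push_cast
  rw [← Complex.coe_algebraMap] 
  rw [← h]
  refine Finset.sum_congr rfl fun i _ => ?_
  rw [inner_sum]
  refine Finset.sum_congr rfl fun j _ => ?_
  rw [inner_smul_left, inner_smul_right]
  ring

lemma avg_norm_sq (h : Mom w c) (y : Fin n → K) :
    ∑ ω : Fin n → κ, ‖∑ i, w (ω i) • y i‖ ^ 2 = (Fintype.card κ : ℝ) ^ n * ∑ i, ‖y i‖ ^ 2 := by
  have e : ((∑ ω : Fin n → κ, ‖∑ i, w (ω i) • y i‖ ^ 2 : ℝ) : ℂ) =
      (((Fintype.card κ : ℝ) ^ n * ∑ i, ‖y i‖ ^ 2 : ℝ) : ℂ) := by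
    rw [Complex.ofReal_sum]
    simp only [normsq_expand]
    rw [Finset.sum_comm]
    have h1 : ∀ i : Fin n, ∑ ω : Fin n → κ, ∑ j, (w (ω j) * conj (w (ω i))) * inner ℂ (y i) (y j) =
        (Fintype.card κ : ℂ) ^ n * ((‖y i‖ ^ 2 : ℝ) : ℂ) := by
      intro i
      rw [Finset.sum_comm]
      simp only [← Finset.sum_mul, sum_two h]
      rw [Finset.sum_eq_single i]
      · rw [inner_self_eq_norm_sq_to_K]; simp
      · intro j _ hj; simp [hj]
      · simp
    rw [Finset.sum_congr rfl fun i _ => h1 i, ← Finset.mul_sum]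
    push_cast
    ring
  exact_mod_cast e

lemma avg_norm_sq_w {c : ℝ} (h : Mom w (c : ℂ)) (y : Fin n → K) :
    ∑ ω : Fin n → κ, (∑ d, ‖w (ω d)‖ ^ 2) * ‖∑ i, w (ω i) • y i‖ ^ 2 =
      (Fintype.card κ : ℝ) ^ n * ((n + c - 1) * ∑ i, ‖y i‖ ^ 2) := by
  have e : ((∑ ω : Fin n → κ, (∑ d, ‖w (ω d)‖ ^ 2) * ‖∑ i, w (ω i) • y i‖ ^ 2 : ℝ) : ℂ) =
      (((Fintype.card κ : ℝ) ^ n * ((n + c - 1) * ∑ i, ‖y i‖ ^ 2) : ℝ) : ℂ) := by
    rw [Complex.ofReal_sum]
    simp only [Complex.ofReal_mul, normsq_expand]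
    have h0 : ∀ ω : Fin n → κ, ((∑ d, ‖w (ω d)‖ ^ 2 : ℝ) : ℂ) = ∑ d, w (ω d) * conj (w (ω d)) := by
      intro ω
      rw [Complex.ofReal_sum]
      refine Finset.sum_congr rfl fun d _ => ?_
      rw [Complex.mul_conj, Complex.normSq_eq_norm_sq]
    simp only [h0]
    simp only [Finset.mul_sum, Finset.sum_mul]
    rw [Finset.sum_comm]
    have h1 : ∀ i : Fin n, ∑ ω : Fin n → κ, ∑ j, ∑ d, w (ω d) * conj (w (ω d)) *
        ((w (ω j) * conj (w (ω i))) * inner ℂ (y i) (y j)) =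
        (Fintype.card κ : ℂ) ^ n * ((n + c - 1) * ((‖y i‖ ^ 2 : ℝ) : ℂ)) := by
      intro i
      rw [Finset.sum_comm]
      rw [Finset.sum_eq_single i]
      · rw [Finset.sum_comm]
        have h2 : ∀ d : Fin n, ∑ ω : Fin n → κ, w (ω d) * conj (w (ω d)) *
            ((w (ω i) * conj (w (ω i))) * inner ℂ (y i) (y i)) =
            (Fintype.card κ : ℂ) ^ n * ((1 + (if d = i then (c - 1 : ℂ) else 0)) * ((‖y i‖ ^ 2 : ℝ) : ℂ)) := by
          intro d
          have h3 : ∀ ω : Fin n → κ, w (ω d) * conj (w (ω d)) *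
            ((w (ω i) * conj (w (ω i))) * inner ℂ (y i) (y i)) =
            (w (ω d) * w (ω i) * conj (w (ω d)) * conj (w (ω i))) * inner ℂ (y i) (y i) := fun ω => by ring
          simp only [h3, ← Finset.sum_mul]
          rw [sum_four h, inner_self_eq_norm_sq_to_K]
          by_cases hd : d = i
          · simp [hd]; ring
          · simp [hd]
        simp only [h2]
        rw [← Finset.mul_sum, ← Finset.sum_mul, Finset.sum_add_distrib]
        simp only [Finset.sum_const, Finset.card_univ, Fintype.card_fin, nsmul_eq_mul, mul_one,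
          Finset.sum_ite_eq', Finset.mem_univ, if_true]
        ring
      · intro j _ hj
        rw [Finset.sum_comm]
        refine Finset.sum_eq_zero fun d _ => ?_
        have h3 : ∀ ω : Fin n → κ, w (ω d) * conj (w (ω d)) *
            ((w (ω j) * conj (w (ω i))) * inner ℂ (y i) (y j)) =
            (w (ω d) * w (ω j) * conj (w (ω d)) * conj (w (ω i))) * inner ℂ (y i) (y j) := fun ω => by ring
        simp only [h3, ← Finset.sum_mul]
        rw [sum_four h]
        have h4 : ¬ (d = i ∧ j = d) := fun hh => hj (hh.2.trans hh.1)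
        have h5 : ¬ (d = j ∧ d = i) := fun hh => hj (hh.1.symm.trans hh.2)
        simp [hj, h4, h5]
      · simp
    rw [Finset.sum_congr rfl fun i _ => h1 i]
    simp only [← Finset.mul_sum]
    push_cast
    ring
  exact_mod_cast e

end

end Pool.Agent.Helper547.Alpha
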