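import Mathlib
import Pool.Agent.Helper547.Alpha.Vec

set_option autoImplicit false

open scoped InnerProductSpace

open Finset ComplexConjugate Filter Topology

namespace Pool.Agent.Helper547.Alpha

section
variable {n : ℕ}
variable {K : Type*} [NormedAddCommGroup K] [InnerProductSpace ℂ K] [CompleteSpace K]


omit [CompleteSpace K] in
lemma sum_apply_sq_le {n : ℕ} (a : Fin n → K →L[ℂ] K) (ha : ∀ i, ‖a i‖ ≤ 1) (y : Fin n → K) :
    ‖∑ i, a i (y i)‖ ^ 2 ≤ n * ∑ i, ‖y i‖ ^ 2 := by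
  have h1 : ‖∑ i, a i (y i)‖ ≤ ∑ i, ‖y i‖ := by
    refine (norm_sum_le _ _).trans (Finset.sum_le_sum fun i _ => ?_)
    calc ‖a i (y i)‖ ≤ ‖a i‖ * ‖y i‖ := (a i).le_opNorm _
      _ ≤ 1 * ‖y i‖ := by gcongr; exact ha i
      _ = ‖y i‖ := one_mul _
  calc ‖∑ i, a i (y i)‖ ^ 2 ≤ (∑ i, ‖y i‖) ^ 2 := by gcongr
    _ ≤ (Finset.univ : Finset (Fin n)).card * ∑ i, ‖y i‖ ^ 2 := sq_sum_le_card_mul_sum_sq
    _ = n * ∑ i, ‖y i‖ ^ 2 := by simp

lemma inner_S (b : Fin n → K →L[ℂ] K) (x : K) :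
    ⟪x, (∑ j, star (b j) * b j) x⟫_ℂ = ((∑ i, ‖b i x‖ ^ 2 : ℝ) : ℂ) := by
  rw [_root_.sum_apply, inner_sum, Complex.ofReal_sum]
  refine Finset.sum_congr rfl fun j _ => ?_
  have : (star (b j) * b j) x = (star (b j)) (b j x) := rfl
  rw [this, ContinuousLinearMap.star_eq_adjoint, ContinuousLinearMap.adjoint_inner_right,
    inner_self_eq_norm_sq_to_K]
  simp

lemma inner_R (b : Fin n → K →L[ℂ] K) (x : K) :
    ⟪x, (∑ j, b j * star (b j)) x⟫_ℂ = ((∑ i, ‖star (b i) x‖ ^ 2 : ℝ) : ℂ) := by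
  rw [_root_.sum_apply, inner_sum, Complex.ofReal_sum]
  refine Finset.sum_congr rfl fun j _ => ?_
  have : (b j * star (b j)) x = b j (star (b j) x) := rfl
  rw [this, ← ContinuousLinearMap.adjoint_inner_left, ContinuousLinearMap.star_eq_adjoint,
    inner_self_eq_norm_sq_to_K]
  simp

theorem final_step (a b : Fin n → K →L[ℂ] K) (hab : ∀ i j, a i * b j = b j * a i)
    (ha : ∀ i, ‖a i‖ ≤ 1) (hb : ∀ i, ‖b i‖ ≤ 1) {κ : ℝ} (hκ : 0 ≤ κ)
    (hyp : ∀ ξ η : K, ‖⟪ξ, (∑ i, a i * b i) ((∑ j, star (b j) * b j) η) +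
        (∑ j, b j * star (b j)) ((∑ i, a i * b i) η)⟫_ℂ‖ ≤
        κ * (Real.sqrt (∑ i, ‖star (b i) ξ‖ ^ 2) * Real.sqrt (∑ i, ‖b i η‖ ^ 2))) :
    ‖∑ i, a i * b i‖ ≤ κ / 2 := by
  rcases Nat.eq_zero_or_pos n with hn | hn
  · subst hn; simp; positivity
  set T := ∑ i, a i * b i with hT
  set S := ∑ j, star (b j) * b j with hS
  set R := ∑ j, b j * star (b j) with hR
  by_contra hcon
  push Not at hcon
  set t := ‖T‖ with ht
  have htpos : 0 < t := lt_of_le_of_lt (by positivity) hcon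
  set δ := 2 * t - κ with hδ
  have hδpos : 0 < δ := by rw [hδ]; linarith
  have hn' : (0 : ℝ) < n := by exact_mod_cast hn
  have key : ∀ r : ℝ, 0 ≤ r → r < t → δ * r ^ 3 ≤ n ^ 2 * t * Real.sqrt (t ^ 2 - r ^ 2) := by
    intro r hr0 hrt
    obtain ⟨x, hx1, hx2⟩ := T.exists_lt_apply_of_lt_opNorm hrt
    set G := star T (T x) with hG
    set σ := ∑ i, ‖b i x‖ ^ 2 with hσ
    set ρ := ∑ i, ‖star (b i) (T x)‖ ^ 2 with hρ
    have hσ0 : 0 ≤ σ := Finset.sum_nonneg fun i _ => by positivity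
    have hρ0 : 0 ≤ ρ := Finset.sum_nonneg fun i _ => by positivity
    have hTx : ‖T x‖ ≤ t := by
      calc ‖T x‖ ≤ ‖T‖ * ‖x‖ := T.le_opNorm x
        _ ≤ t * 1 := by gcongr
        _ = t := mul_one _
    have hGx : ‖G‖ ≤ t * ‖T x‖ := by
      calc ‖G‖ ≤ ‖star T‖ * ‖T x‖ := (star T).le_opNorm _
        _ = t * ‖T x‖ := by rw [norm_star]
    have hinner : ⟪G, x⟫_ℂ = ((‖T x‖ ^ 2 : ℝ) : ℂ) := by
      rw [hG, ContinuousLinearMap.star_eq_adjoint, ContinuousLinearMap.adjoint_inner_left,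
        inner_self_eq_norm_sq_to_K]
      simp
    -- distance of G to t^2 x
    have hdist : ‖G - ((t ^ 2 : ℝ) : ℂ) • x‖ ≤ t * Real.sqrt (t ^ 2 - r ^ 2) := by
      have h1 : ‖G - ((t ^ 2 : ℝ) : ℂ) • x‖ ^ 2 ≤ t ^ 2 * (t ^ 2 - r ^ 2) := by
        rw [@norm_sub_sq ℂ]
        rw [inner_smul_right, hinner, norm_smul, Complex.norm_real, Real.norm_of_nonneg (by positivity)]
        have : RCLike.re (((t ^ 2 : ℝ) : ℂ) * ((‖T x‖ ^ 2 : ℝ) : ℂ)) = t ^ 2 * ‖T x‖ ^ 2 := by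
          rw [← Complex.ofReal_mul]; exact Complex.ofReal_re _
        rw [this]
        have h2 : ‖G‖ ^ 2 ≤ t ^ 2 * ‖T x‖ ^ 2 := by
          calc ‖G‖ ^ 2 ≤ (t * ‖T x‖) ^ 2 := by gcongr
            _ = _ := by ring
        have h3 : (t ^ 2 * ‖x‖) ^ 2 ≤ t ^ 4 := by
          have : (t ^ 2 * ‖x‖) ^ 2 = t ^ 4 * ‖x‖ ^ 2 := by ring
          rw [this]
          have h4 : ‖x‖ ^ 2 ≤ 1 := by
            have := norm_nonneg x
            nlinarith
          have : 0 ≤ t ^ 4 := by positivity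
          nlinarith
        have h5 : r ^ 2 ≤ ‖T x‖ ^ 2 := by
          have := hx2.le
          gcongr
        nlinarith [mul_le_mul_of_nonneg_left h5 (by positivity : (0 : ℝ) ≤ t ^ 2)]
      have h2 : ‖G - ((t ^ 2 : ℝ) : ℂ) • x‖ ≤ Real.sqrt (t ^ 2 * (t ^ 2 - r ^ 2)) := by
        rw [← Real.sqrt_sq (norm_nonneg (G - ((t ^ 2 : ℝ) : ℂ) • x))]
        exact Real.sqrt_le_sqrt h1
      rwa [Real.sqrt_mul (by positivity), Real.sqrt_sq htpos.le] at h2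
    have hSx : ‖S x‖ ≤ n := by
      rw [hS, _root_.sum_apply]
      calc ‖∑ j, (star (b j) * b j) x‖ ≤ ∑ j : Fin n, ‖(star (b j) * b j) x‖ := norm_sum_le _ _
        _ ≤ ∑ _j : Fin n, (1 : ℝ) := by
          refine Finset.sum_le_sum fun j _ => ?_
          calc ‖(star (b j) * b j) x‖ ≤ ‖star (b j) * b j‖ * ‖x‖ := ContinuousLinearMap.le_opNorm _ _
            _ ≤ (‖star (b j)‖ * ‖b j‖) * 1 := by gcongr; exact norm_mul_le _ _
            _ ≤ (1 * 1) * 1 := by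
              rw [norm_star]; gcongr <;> exact hb j
            _ = 1 := by norm_num
        _ = n := by simp
    have h1 := hyp (T x) x
    rw [inner_add_right] at h1
    have e1 : ⟪T x, T (S x)⟫_ℂ = ⟪G, S x⟫_ℂ := by
      rw [hG, ContinuousLinearMap.star_eq_adjoint, ContinuousLinearMap.adjoint_inner_left]
    have e2 : ⟪T x, R (T x)⟫_ℂ = ((ρ : ℝ) : ℂ) := by
      exact inner_R b (T x)
    have e3 : ⟪x, S x⟫_ℂ = ((σ : ℝ) : ℂ) := by
      exact inner_S b x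
    have e4 : ⟪G, S x⟫_ℂ = ((t ^ 2 * σ : ℝ) : ℂ) + ⟪G - ((t ^ 2 : ℝ) : ℂ) • x, S x⟫_ℂ := by
      rw [inner_sub_left, inner_smul_left, e3]
      simp
    have h2 : t ^ 2 * σ + ρ - t * Real.sqrt (t ^ 2 - r ^ 2) * n ≤
        ‖⟪T x, T (S x)⟫_ℂ + ⟪T x, R (T x)⟫_ℂ‖ := by
      rw [e1, e2, e4]
      have h3 : ‖⟪G - ((t ^ 2 : ℝ) : ℂ) • x, S x⟫_ℂ‖ ≤ t * Real.sqrt (t ^ 2 - r ^ 2) * n := by
        calc _ ≤ ‖G - ((t ^ 2 : ℝ) : ℂ) • x‖ * ‖S x‖ := norm_inner_le_norm _ _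
          _ ≤ t * Real.sqrt (t ^ 2 - r ^ 2) * n := by gcongr
      have h4 := norm_sub_norm_le (((t ^ 2 * σ + ρ : ℝ) : ℂ)) (-⟪G - ((t ^ 2 : ℝ) : ℂ) • x, S x⟫_ℂ)
      rw [norm_neg, Complex.norm_real, Real.norm_of_nonneg (by positivity)] at h4
      have h5 : ((t ^ 2 * σ + ρ : ℝ) : ℂ) - -⟪G - ((t ^ 2 : ℝ) : ℂ) • x, S x⟫_ℂ =
          ((t ^ 2 * σ : ℝ) : ℂ) + ⟪G - ((t ^ 2 : ℝ) : ℂ) • x, S x⟫_ℂ + ((ρ : ℝ) : ℂ) := by
        push_cast; ring
      rw [h5] at h4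
      linarith
    have h3 : t ^ 2 * σ + ρ - t * Real.sqrt (t ^ 2 - r ^ 2) * n ≤
        κ * (Real.sqrt ρ * Real.sqrt σ) := h2.trans h1
    have h4 : 2 * t * (Real.sqrt ρ * Real.sqrt σ) ≤ t ^ 2 * σ + ρ := by
      have hs := Real.sq_sqrt hσ0
      have hr := Real.sq_sqrt hρ0
      nlinarith [sq_nonneg (t * Real.sqrt σ - Real.sqrt ρ)]
    have h5 : δ * (Real.sqrt ρ * Real.sqrt σ) ≤ t * Real.sqrt (t ^ 2 - r ^ 2) * n := by
      rw [hδ]; nlinarith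
    -- lower bounds
    have hσl : r ^ 2 ≤ n * σ := by
      have h6 : T x = ∑ i, a i (b i x) := by
        rw [hT, _root_.sum_apply]; rfl
      have h7 := sum_apply_sq_le a ha (fun i => b i x)
      rw [← h6] at h7
      have : r ^ 2 ≤ ‖T x‖ ^ 2 := by gcongr
      linarith
    have hρl : r ^ 4 ≤ n * ρ := by
      have h6 : G = ∑ i, star (a i) (star (b i) (T x)) := by
        rw [hG, hT, star_sum, _root_.sum_apply]
        refine Finset.sum_congr rfl fun i _ => ?_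
        have : star (a i * b i) = star (a i) * star (b i) := by
          rw [hab i i, star_mul]
        rw [this]; rfl
      have h7 := sum_apply_sq_le (fun i => star (a i)) (fun i => by rw [norm_star]; exact ha i)
        (fun i => star (b i) (T x))
      rw [← h6] at h7
      have h8 : r ^ 2 ≤ ‖G‖ := by
        have h9 : ‖⟪G, x⟫_ℂ‖ ≤ ‖G‖ * ‖x‖ := norm_inner_le_norm _ _
        rw [hinner, Complex.norm_real, Real.norm_of_nonneg (by positivity)] at h9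
        have h10 : ‖G‖ * ‖x‖ ≤ ‖G‖ * 1 := by gcongr
        have : r ^ 2 ≤ ‖T x‖ ^ 2 := by gcongr
        linarith
      have : r ^ 4 ≤ ‖G‖ ^ 2 := by
        calc r ^ 4 = (r ^ 2) ^ 2 := by ring
          _ ≤ ‖G‖ ^ 2 := by gcongr
      linarith
    have h6 : r ^ 3 ≤ n * (Real.sqrt ρ * Real.sqrt σ) := by
      have h7 : r ^ 3 = Real.sqrt (r ^ 4 * r ^ 2) := by
        rw [show r ^ 4 * r ^ 2 = (r ^ 3) ^ 2 by ring, Real.sqrt_sq (by positivity)]
      have h8 : n * (Real.sqrt ρ * Real.sqrt σ) = Real.sqrt ((n * ρ) * (n * σ)) := by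
        rw [show (n * ρ) * (n * σ) = (n : ℝ) ^ 2 * (ρ * σ) by ring, Real.sqrt_mul (by positivity),
          Real.sqrt_sq hn'.le, Real.sqrt_mul hρ0]
      rw [h7, h8]
      apply Real.sqrt_le_sqrt
      gcongr
    calc δ * r ^ 3 ≤ δ * (n * (Real.sqrt ρ * Real.sqrt σ)) := by gcongr
      _ = n * (δ * (Real.sqrt ρ * Real.sqrt σ)) := by ring
      _ ≤ n * (t * Real.sqrt (t ^ 2 - r ^ 2) * n) := by gcongr
      _ = _ := by ring
  -- limit
  have hlim1 : Tendsto (fun r : ℝ => δ * r ^ 3) (𝓝[<] t) (𝓝 (δ * t ^ 3)) := by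
    apply Tendsto.mono_left _ nhdsWithin_le_nhds
    exact (continuous_const.mul (continuous_id.pow 3)).tendsto t
  have hlim2 : Tendsto (fun r : ℝ => n ^ 2 * t * Real.sqrt (t ^ 2 - r ^ 2)) (𝓝[<] t)
      (𝓝 (n ^ 2 * t * Real.sqrt (t ^ 2 - t ^ 2))) := by
    apply Tendsto.mono_left _ nhdsWithin_le_nhds
    exact (continuous_const.mul (Real.continuous_sqrt.comp
      (continuous_const.sub (continuous_id.pow 2)))).tendsto t
  have hev : ∀ᶠ r in 𝓝[<] t, δ * r ^ 3 ≤ n ^ 2 * t * Real.sqrt (t ^ 2 - r ^ 2) := by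
    have h0 : ∀ᶠ r in 𝓝[<] t, (0 : ℝ) ≤ r :=
      nhdsWithin_le_nhds (Ici_mem_nhds htpos)
    filter_upwards [h0, self_mem_nhdsWithin] with r hr0 hrt
    exact key r hr0 hrt
  have h := le_of_tendsto_of_tendsto hlim1 hlim2 hev
  rw [sub_self, Real.sqrt_zero, mul_zero] at h
  have : 0 < δ * t ^ 3 := by positivity
  linarith

end

end Pool.Agent.Helper547.Alpha
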