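import Mathlib
import Pool.Agent.Helper547.Alpha.Core

set_option autoImplicit false

open scoped InnerProductSpace

open Finset ComplexConjugate Filter Topology

namespace Pool.Agent.Helper547.Alpha

section
variable {n : ℕ}
variable {K : Type*} [NormedAddCommGroup K] [InnerProductSpace ℂ K]


lemma expand4 (a b c : Fin n → K →L[ℂ] K) (z : Fin n → ℂ) :
    (∑ l, z l • a l) * ((∑ i, conj (z i) • b i) * ((∑ j, z j • c j) * (∑ k, conj (z k) • b k))) =
      ∑ l, ∑ i, ∑ j, ∑ k, (z l * z j * conj (z i) * conj (z k)) • (a l * (b i * (c j * b k))) := by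
  simp only [Finset.sum_mul, smul_mul_assoc]
  simp only [Finset.mul_sum, mul_smul_comm, Finset.smul_sum, smul_smul]
  refine Finset.sum_congr rfl fun l _ => Finset.sum_congr rfl fun i _ =>
    Finset.sum_congr rfl fun j _ => Finset.sum_congr rfl fun k _ => ?_
  congr 1
  ring

lemma avg_op {κ : Type} [Fintype κ] {w : κ → ℂ} {c : ℂ} (h : Mom w c) (a b s : Fin n → K →L[ℂ] K)
    (hab : ∀ i j, a i * b j = b j * a i) (has : ∀ i j, a i * s j = s j * a i) :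
    ∑ ω : Fin n → κ, (∑ l, w (ω l) • a l) * ((∑ i, conj (w (ω i)) • b i) *
        ((∑ j, w (ω j) • s j) * (∑ k, conj (w (ω k)) • b k))) =
      (Fintype.card κ : ℂ) ^ n • ((∑ l, a l * b l) * (∑ j, s j * b j) +
        (∑ j, b j * s j) * (∑ l, a l * b l) + (c - 2) • ∑ l, a l * (b l * (s l * b l))) := by
  have e : ∀ ω : Fin n → κ, (∑ l, w (ω l) • a l) * ((∑ i, conj (w (ω i)) • b i) *
        ((∑ j, w (ω j) • s j) * (∑ k, conj (w (ω k)) • b k))) =
        ∑ l, ∑ i, ∑ j, ∑ k, (w (ω l) * w (ω j) * conj (w (ω i)) * conj (w (ω k))) •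
          (a l * (b i * (s j * b k))) := fun ω => expand4 a b s (fun i => w (ω i))
  simp only [e]
  rw [sum_tensor h (fun l i j k => a l * (b i * (s j * b k)))]
  congr 2
  congr 1
  · rw [Finset.sum_mul]
    refine Finset.sum_congr rfl fun l _ => ?_
    rw [Finset.mul_sum]
    refine Finset.sum_congr rfl fun j _ => ?_
    simp only [mul_assoc]
  · rw [Finset.sum_comm, Finset.sum_mul]
    refine Finset.sum_congr rfl fun j _ => ?_
    rw [Finset.mul_sum]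
    refine Finset.sum_congr rfl fun l _ => ?_
    rw [← mul_assoc, hab, mul_assoc, ← mul_assoc (a l), has]
    simp only [mul_assoc]

end

section
variable {n : ℕ}
variable {K : Type*} [NormedAddCommGroup K] [InnerProductSpace ℂ K] [CompleteSpace K]


lemma single_bound {F : Type*} [NormedAddCommGroup F] [NormedSpace ℂ F] {a : Fin n → F}
    (ha : ∀ z : Fin n → ℂ, ‖∑ i, z i • a i‖ ≤ Real.sqrt (∑ i, ‖z i‖ ^ 2)) (i : Fin n) : ‖a i‖ ≤ 1 := by
  have h := ha (Pi.single i 1)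
  have e1 : ∑ j, (Pi.single i (1 : ℂ) : Fin n → ℂ) j • a j = a i := by
    rw [Finset.sum_eq_single i]
    · simp
    · intro j _ hj; simp [Pi.single_eq_of_ne hj]
    · simp
  have e2 : ∑ j, ‖(Pi.single i (1 : ℂ) : Fin n → ℂ) j‖ ^ 2 = 1 := by
    rw [Finset.sum_eq_single i]
    · simp
    · intro j _ hj; simp [Pi.single_eq_of_ne hj]
    · simp
  rw [e1, e2, Real.sqrt_one] at h
  exact h

lemma star_sum_smul (b : Fin n → K →L[ℂ] K) (z : Fin n → ℂ) :
    star (∑ i, conj (z i) • b i) = ∑ i, z i • star (b i) := by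
  rw [star_sum]
  refine Finset.sum_congr rfl fun i _ => ?_
  rw [star_smul]
  simp

omit [CompleteSpace K] in
lemma comm_sum (a b : Fin n → K →L[ℂ] K) (hab : ∀ i j, a i * b j = b j * a i) (z z' : Fin n → ℂ) :
    (∑ i, z i • a i) * (∑ j, z' j • b j) = (∑ j, z' j • b j) * (∑ i, z i • a i) := by
  have : Commute (∑ i, z i • a i) (∑ j, z' j • b j) :=
    Commute.sum_left _ _ _ (fun i _ => Commute.sum_right _ _ _
      (fun j _ => ((show Commute (a i) (b j) from hab i j).smul_left _).smul_right _))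
  exact this

theorem core_l2 (a b : Fin n → K →L[ℂ] K) (hab : ∀ i j, a i * b j = b j * a i)
    (hab' : ∀ i j, a i * star (b j) = star (b j) * a i)
    (ha : ∀ z : Fin n → ℂ, ‖∑ i, z i • a i‖ ≤ Real.sqrt (∑ i, ‖z i‖ ^ 2))
    (hb : ∀ z : Fin n → ℂ, ‖∑ i, z i • b i‖ ≤ Real.sqrt (∑ i, ‖z i‖ ^ 2)) :
    ‖∑ i, a i * b i‖ ≤ ((n : ℝ) + 1) / 2 := by
  apply final_step a b hab (single_bound ha) (single_bound hb) (by positivity)
  intro ξ η
  set T := ∑ i, a i * b i with hT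
  set S := ∑ j, star (b j) * b j with hS
  set R := ∑ j, b j * star (b j) with hR
  set N : ℝ := (Fintype.card (Fin 8) : ℝ) ^ n with hN
  have hNpos : 0 < N := by rw [hN]; simp
  have havg := avg_op mom_wG a b (fun j => star (b j)) hab hab'
  rw [sub_self, zero_smul, add_zero, ← hT, ← hS, ← hR] at havg
  -- pointwise estimate
  have hpt : ∀ ω : Fin n → Fin 8, ‖⟪ξ, ((∑ l, wG (ω l) • a l) * ((∑ i, conj (wG (ω i)) • b i) *
        ((∑ j, wG (ω j) • star (b j)) * (∑ k, conj (wG (ω k)) • b k)))) η⟫_ℂ‖ ≤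
      (Real.sqrt (∑ i, ‖wG (ω i)‖ ^ 2) * ‖∑ i, wG (ω i) • star (b i) ξ‖) *
      (Real.sqrt (∑ i, ‖wG (ω i)‖ ^ 2) * ‖∑ i, conj (wG (ω i)) • b i η‖) := by
    intro ω
    set A := ∑ l, wG (ω l) • a l with hA
    set B := ∑ i, conj (wG (ω i)) • b i with hB
    set Bs := ∑ j, wG (ω j) • star (b j) with hBs
    have hBstar : star B = Bs := star_sum_smul b (fun i => wG (ω i))
    have hAB : A * B = B * A := comm_sum a b hab _ _
    have e1 : (A * (B * (Bs * B))) η = B (A (Bs (B η))) := by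
      rw [← mul_assoc, hAB]; rfl
    have e2 : ⟪ξ, B (A (Bs (B η)))⟫_ℂ = ⟪Bs ξ, A (Bs (B η))⟫_ℂ := by
      rw [← hBstar, ContinuousLinearMap.star_eq_adjoint, ContinuousLinearMap.adjoint_inner_left]
    have e3 : Bs ξ = ∑ i, wG (ω i) • star (b i) ξ := by
      rw [hBs, _root_.sum_apply]; rfl
    have e4 : B η = ∑ i, conj (wG (ω i)) • b i η := by
      rw [hB, _root_.sum_apply]; rfl
    have hAn : ‖A‖ ≤ Real.sqrt (∑ i, ‖wG (ω i)‖ ^ 2) := ha (fun i => wG (ω i))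
    have hBn : ‖Bs‖ ≤ Real.sqrt (∑ i, ‖wG (ω i)‖ ^ 2) := by
      rw [← hBstar, norm_star]
      have := hb (fun i => conj (wG (ω i)))
      simpa using this
    rw [e1, e2, ← e3, ← e4]
    calc ‖⟪Bs ξ, A (Bs (B η))⟫_ℂ‖ ≤ ‖Bs ξ‖ * ‖A (Bs (B η))‖ := norm_inner_le_norm _ _
      _ ≤ ‖Bs ξ‖ * (‖A‖ * (‖Bs‖ * ‖B η‖)) := by
        gcongr
        exact (A.le_opNorm _).trans (by gcongr; exact Bs.le_opNorm _)
      _ ≤ ‖Bs ξ‖ * (Real.sqrt (∑ i, ‖wG (ω i)‖ ^ 2) * (Real.sqrt (∑ i, ‖wG (ω i)‖ ^ 2) * ‖B η‖)) := by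
        gcongr
      _ = _ := by ring
  have hsum : ‖⟪ξ, (∑ ω : Fin n → Fin 8, (∑ l, wG (ω l) • a l) * ((∑ i, conj (wG (ω i)) • b i) *
        ((∑ j, wG (ω j) • star (b j)) * (∑ k, conj (wG (ω k)) • b k)))) η⟫_ℂ‖ ≤
      Real.sqrt (N * ((n + 1) * ∑ i, ‖star (b i) ξ‖ ^ 2)) *
        Real.sqrt (N * ((n + 1) * ∑ i, ‖b i η‖ ^ 2)) := by
    rw [_root_.sum_apply, inner_sum]
    refine (norm_sum_le _ _).trans ((Finset.sum_le_sum fun ω _ => hpt ω).trans ?_)
    refine (Real.sum_mul_le_sqrt_mul_sqrt _ _ _).trans ?_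
    have e1 : ∑ ω : Fin n → Fin 8, (Real.sqrt (∑ i, ‖wG (ω i)‖ ^ 2) *
        ‖∑ i, wG (ω i) • star (b i) ξ‖) ^ 2 = N * ((n + 1) * ∑ i, ‖star (b i) ξ‖ ^ 2) := by
      have h := avg_norm_sq_w (c := 2) (by exact_mod_cast mom_wG) (fun i => star (b i) ξ)
      rw [hN, show (n : ℝ) + 1 = n + 2 - 1 by ring, ← h]
      refine Finset.sum_congr rfl fun ω _ => ?_
      rw [mul_pow, Real.sq_sqrt (Finset.sum_nonneg fun i _ => by positivity)]
    have e2 : ∑ ω : Fin n → Fin 8, (Real.sqrt (∑ i, ‖wG (ω i)‖ ^ 2) *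
        ‖∑ i, conj (wG (ω i)) • b i η‖) ^ 2 = N * ((n + 1) * ∑ i, ‖b i η‖ ^ 2) := by
      have h := avg_norm_sq_w (c := 2) (by exact_mod_cast mom_wG.conj) (fun i => b i η)
      rw [hN, show (n : ℝ) + 1 = n + 2 - 1 by ring, ← h]
      refine Finset.sum_congr rfl fun ω _ => ?_
      rw [mul_pow, Real.sq_sqrt (Finset.sum_nonneg fun i _ => by positivity)]
      simp
    rw [e1, e2]
  rw [havg] at hsum
  have e5 : ‖⟪ξ, (((Fintype.card (Fin 8) : ℂ) ^ n) • (T * S + R * T)) η⟫_ℂ‖ =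
      N * ‖⟪ξ, T (S η) + R (T η)⟫_ℂ‖ := by
    rw [_root_.smul_apply, inner_smul_right, norm_mul]
    congr 1
    rw [hN]; simp
  rw [e5] at hsum
  have e6 : Real.sqrt (N * ((n + 1) * ∑ i, ‖star (b i) ξ‖ ^ 2)) *
        Real.sqrt (N * ((n + 1) * ∑ i, ‖b i η‖ ^ 2)) =
      N * (((n : ℝ) + 1) * (Real.sqrt (∑ i, ‖star (b i) ξ‖ ^ 2) * Real.sqrt (∑ i, ‖b i η‖ ^ 2))) := by
    rw [Real.sqrt_mul hNpos.le, Real.sqrt_mul hNpos.le, Real.sqrt_mul (by positivity),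
      Real.sqrt_mul (by positivity)]
    have h1 := Real.mul_self_sqrt hNpos.le
    have h2 := Real.mul_self_sqrt (show (0 : ℝ) ≤ n + 1 by positivity)
    calc _ = (Real.sqrt N * Real.sqrt N) * ((Real.sqrt ((n : ℝ) + 1) * Real.sqrt ((n : ℝ) + 1)) *
          (Real.sqrt (∑ i, ‖star (b i) ξ‖ ^ 2) * Real.sqrt (∑ i, ‖b i η‖ ^ 2))) := by ring
      _ = _ := by rw [h1, h2]
  rw [e6] at hsum
  exact le_of_mul_le_mul_left hsum hNpos

end

end Pool.Agent.Helper547.Alpha
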