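import Mathlib
import Pool.Agent.Helper547.Alpha.CoreL2

set_option autoImplicit false

open scoped InnerProductSpace

open Finset ComplexConjugate Filter Topology

namespace Pool.Agent.Helper547.Alpha

section
variable {n : ℕ}
variable {K : Type*} [NormedAddCommGroup K] [InnerProductSpace ℂ K]


lemma normsq_expand2 (z : Fin n → ℂ) (y : Fin n → Fin n → K) :
    ((‖∑ i, ∑ l, (z i * conj (z l)) • y i l‖ ^ 2 : ℝ) : ℂ) =
      ∑ l, ∑ i, ∑ j, ∑ k, (z l * z j * conj (z i) * conj (z k)) • ⟪y i l, y j k⟫_ℂ := by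
  have h := inner_self_eq_norm_sq_to_K (𝕜 := ℂ) (∑ i, ∑ l, (z i * conj (z l)) • y i l)
  push_cast
  rw [← Complex.coe_algebraMap]
  rw [← h]
  rw [Finset.sum_comm]
  rw [sum_inner]
  refine Finset.sum_congr rfl fun l _ => ?_
  rw [sum_inner]
  refine Finset.sum_congr rfl fun i _ => ?_
  rw [Finset.sum_comm, inner_sum]
  refine Finset.sum_congr rfl fun j _ => ?_
  rw [inner_sum]
  refine Finset.sum_congr rfl fun k _ => ?_
  rw [inner_smul_left, inner_smul_right]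
  simp only [map_mul, Complex.conj_conj, smul_eq_mul]
  ring

lemma avg_quartic {κ : Type} [Fintype κ] {w : κ → ℂ} {c : ℝ} (h : Mom w (c : ℂ)) (y : Fin n → Fin n → K) :
    ∑ ω : Fin n → κ, ‖∑ i, ∑ l, (w (ω i) * conj (w (ω l))) • y i l‖ ^ 2 =
      (Fintype.card κ : ℝ) ^ n * (‖∑ l, y l l‖ ^ 2 + ∑ l, ∑ j, ‖y j l‖ ^ 2 +
        (c - 2) * ∑ l, ‖y l l‖ ^ 2) := by
  have e : ((∑ ω : Fin n → κ, ‖∑ i, ∑ l, (w (ω i) * conj (w (ω l))) • y i l‖ ^ 2 : ℝ) : ℂ) =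
      (((Fintype.card κ : ℝ) ^ n * (‖∑ l, y l l‖ ^ 2 + ∑ l, ∑ j, ‖y j l‖ ^ 2 +
        (c - 2) * ∑ l, ‖y l l‖ ^ 2) : ℝ) : ℂ) := by
    rw [Complex.ofReal_sum]
    have e1 : ∀ ω : Fin n → κ, ((‖∑ i, ∑ l, (w (ω i) * conj (w (ω l))) • y i l‖ ^ 2 : ℝ) : ℂ) =
        ∑ l, ∑ i, ∑ j, ∑ k, (w (ω l) * w (ω j) * conj (w (ω i)) * conj (w (ω k))) •
          ⟪y i l, y j k⟫_ℂ := fun ω => normsq_expand2 (fun i => w (ω i)) y
    simp only [e1]
    rw [sum_tensor h (fun l i j k => ⟪y i l, y j k⟫_ℂ)]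
    have e2 : ∑ l, ∑ j, ⟪y l l, y j j⟫_ℂ = ((‖∑ l, y l l‖ ^ 2 : ℝ) : ℂ) := by
      have h := inner_self_eq_norm_sq_to_K (𝕜 := ℂ) (∑ l, y l l)
      push_cast
      rw [← Complex.coe_algebraMap, ← h, sum_inner]
      refine Finset.sum_congr rfl fun l _ => ?_
      rw [inner_sum]
    have e3 : ∀ l j : Fin n, ⟪y j l, y j l⟫_ℂ = ((‖y j l‖ ^ 2 : ℝ) : ℂ) := by
      intro l j
      rw [inner_self_eq_norm_sq_to_K]; simp
    rw [e2]
    simp only [e3]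
    push_cast
    rw [smul_eq_mul, smul_eq_mul]
  exact_mod_cast e

end

section
variable {n : ℕ}
variable {K : Type*} [NormedAddCommGroup K] [InnerProductSpace ℂ K] [CompleteSpace K]


/-- the basic estimate -/
theorem linf_est (a b : Fin n → K →L[ℂ] K) (hab : ∀ i j, a i * b j = b j * a i)
    (hab' : ∀ i j, a i * star (b j) = star (b j) * a i)
    (ha : ∀ z : Fin n → ℂ, (∀ i, ‖z i‖ ≤ 1) → ‖∑ i, z i • a i‖ ≤ 1) (ξ η : K) :
    ‖⟪ξ, ((∑ l, a l * b l) * (∑ j, star (b j) * b j) + (∑ j, b j * star (b j)) * (∑ l, a l * b l) -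
        ∑ l, a l * (b l * (star (b l) * b l))) η⟫_ℂ‖ ≤
      Real.sqrt (∑ i, ‖star (b i) ξ‖ ^ 2) *
      Real.sqrt (‖∑ l, star (b l) (b l η)‖ ^ 2 + ∑ l, ∑ j, ‖star (b j) (b l η)‖ ^ 2 -
        ∑ l, ‖star (b l) (b l η)‖ ^ 2) := by
  set N : ℝ := (Fintype.card (Fin 4) : ℝ) ^ n with hN
  have hNpos : 0 < N := by rw [hN]; simp
  have havg := avg_op mom_wT a b (fun j => star (b j)) hab hab'
  set Q := ‖∑ l, star (b l) (b l η)‖ ^ 2 + ∑ l, ∑ j, ‖star (b j) (b l η)‖ ^ 2 -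
        ∑ l, ‖star (b l) (b l η)‖ ^ 2 with hQ
  set X := (∑ l, a l * b l) * (∑ j, star (b j) * b j) + (∑ j, b j * star (b j)) * (∑ l, a l * b l) -
        ∑ l, a l * (b l * (star (b l) * b l)) with hX
  have hX' : (∑ l, a l * b l) * (∑ j, star (b j) * b j) + (∑ j, b j * star (b j)) * (∑ l, a l * b l) +
      ((1 : ℂ) - 2) • ∑ l, a l * (b l * (star (b l) * b l)) = X := by
    rw [hX, show ((1 : ℂ) - 2) = -1 by norm_num, neg_one_smul, sub_eq_add_neg]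
  rw [hX'] at havg
  have hwT : ∀ k, ‖wT k‖ ≤ 1 := by
    intro k
    fin_cases k <;> simp [wT]
  have hpt : ∀ ω : Fin n → Fin 4, ‖⟪ξ, ((∑ l, wT (ω l) • a l) * ((∑ i, conj (wT (ω i)) • b i) *
        ((∑ j, wT (ω j) • star (b j)) * (∑ k, conj (wT (ω k)) • b k)))) η⟫_ℂ‖ ≤
      ‖∑ i, wT (ω i) • star (b i) ξ‖ *
      ‖∑ i, ∑ l, (wT (ω i) * conj (wT (ω l))) • star (b i) (b l η)‖ := by
    intro ω
    set A := ∑ l, wT (ω l) • a l with hA
    set B := ∑ i, conj (wT (ω i)) • b i with hB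
    set Bs := ∑ j, wT (ω j) • star (b j) with hBs
    have hBstar : star B = Bs := star_sum_smul b (fun i => wT (ω i))
    have hAB : A * B = B * A := comm_sum a b hab _ _
    have e1 : (A * (B * (Bs * B))) η = B (A (Bs (B η))) := by
      rw [← mul_assoc, hAB]; rfl
    have e2 : ⟪ξ, B (A (Bs (B η)))⟫_ℂ = ⟪Bs ξ, A (Bs (B η))⟫_ℂ := by
      rw [← hBstar, ContinuousLinearMap.star_eq_adjoint, ContinuousLinearMap.adjoint_inner_left]
    have e3 : Bs ξ = ∑ i, wT (ω i) • star (b i) ξ := by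
      rw [hBs, _root_.sum_apply]; rfl
    have e4 : Bs (B η) = ∑ i, ∑ l, (wT (ω i) * conj (wT (ω l))) • star (b i) (b l η) := by
      rw [hBs, hB, _root_.sum_apply, _root_.sum_apply]
      refine Finset.sum_congr rfl fun i _ => ?_
      rw [_root_.smul_apply, map_sum, Finset.smul_sum]
      refine Finset.sum_congr rfl fun l _ => ?_
      rw [_root_.smul_apply, map_smul, smul_smul]
    have hAn : ‖A‖ ≤ 1 := ha (fun i => wT (ω i)) (fun i => hwT _)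
    rw [e1, e2, ← e3, ← e4]
    calc ‖⟪Bs ξ, A (Bs (B η))⟫_ℂ‖ ≤ ‖Bs ξ‖ * ‖A (Bs (B η))‖ := norm_inner_le_norm _ _
      _ ≤ ‖Bs ξ‖ * (‖A‖ * ‖Bs (B η)‖) := by
        gcongr
        exact A.le_opNorm _
      _ ≤ ‖Bs ξ‖ * (1 * ‖Bs (B η)‖) := by gcongr
      _ = _ := by ring
  have hsum : ‖⟪ξ, (∑ ω : Fin n → Fin 4, (∑ l, wT (ω l) • a l) * ((∑ i, conj (wT (ω i)) • b i) *
        ((∑ j, wT (ω j) • star (b j)) * (∑ k, conj (wT (ω k)) • b k)))) η⟫_ℂ‖ ≤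
      Real.sqrt (N * ∑ i, ‖star (b i) ξ‖ ^ 2) * Real.sqrt (N * Q) := by
    rw [_root_.sum_apply, inner_sum]
    refine (norm_sum_le _ _).trans ((Finset.sum_le_sum fun ω _ => hpt ω).trans ?_)
    refine (Real.sum_mul_le_sqrt_mul_sqrt _ _ _).trans ?_
    rw [avg_norm_sq mom_wT (fun i => star (b i) ξ)]
    have h2 := avg_quartic (c := 1) (by exact_mod_cast mom_wT) (fun i l => star (b i) (b l η))
    rw [h2, hN, hQ]
    apply le_of_eq
    congr 3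
    ring
  rw [havg] at hsum
  have e5 : ‖⟪ξ, (((Fintype.card (Fin 4) : ℂ) ^ n) • X) η⟫_ℂ‖ = N * ‖⟪ξ, X η⟫_ℂ‖ := by
    rw [_root_.smul_apply, inner_smul_right, norm_mul]
    congr 1
    rw [hN]; simp
  rw [e5] at hsum
  have e6 : Real.sqrt (N * ∑ i, ‖star (b i) ξ‖ ^ 2) * Real.sqrt (N * Q) =
      N * (Real.sqrt (∑ i, ‖star (b i) ξ‖ ^ 2) * Real.sqrt Q) := by
    rw [Real.sqrt_mul hNpos.le, Real.sqrt_mul hNpos.le]
    have h1 := Real.mul_self_sqrt hNpos.le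
    calc _ = (Real.sqrt N * Real.sqrt N) *
          (Real.sqrt (∑ i, ‖star (b i) ξ‖ ^ 2) * Real.sqrt Q) := by ring
      _ = _ := by rw [h1]
  rw [e6] at hsum
  exact le_of_mul_le_mul_left hsum hNpos

lemma single_bound' {F : Type*} [NormedAddCommGroup F] [NormedSpace ℂ F] {a : Fin n → F}
    (ha : ∀ z : Fin n → ℂ, (∀ i, ‖z i‖ ≤ 1) → ‖∑ i, z i • a i‖ ≤ 1) (i : Fin n) : ‖a i‖ ≤ 1 := by
  have h := ha (Pi.single i 1) (by
    intro j
    by_cases hj : j = i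
    · subst hj; simp
    · simp [Pi.single_eq_of_ne hj])
  have e1 : ∑ j, (Pi.single i (1 : ℂ) : Fin n → ℂ) j • a j = a i := by
    rw [Finset.sum_eq_single i]
    · simp
    · intro j _ hj; simp [Pi.single_eq_of_ne hj]
    · simp
  rwa [e1] at h

theorem core_linf (a b : Fin n → K →L[ℂ] K) (hab : ∀ i j, a i * b j = b j * a i)
    (hab' : ∀ i j, a i * star (b j) = star (b j) * a i)
    (ha : ∀ z : Fin n → ℂ, (∀ i, ‖z i‖ ≤ 1) → ‖∑ i, z i • a i‖ ≤ 1)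
    (hb : ∀ i, ‖b i‖ ≤ 1) :
    ‖∑ i, a i * b i‖ ≤ (Real.sqrt (2 * n) + 1) / 2 := by
  have ha1 := single_bound' ha
  apply final_step a b hab ha1 hb (by positivity)
  intro ξ η
  have h := linf_est a b hab hab' ha ξ η
  set ρ := ∑ i, ‖star (b i) ξ‖ ^ 2 with hρ
  set σ := ∑ i, ‖b i η‖ ^ 2 with hσ
  have hσ0 : 0 ≤ σ := Finset.sum_nonneg fun i _ => by positivity
  have hQ : ‖∑ l, star (b l) (b l η)‖ ^ 2 + ∑ l, ∑ j, ‖star (b j) (b l η)‖ ^ 2 -
        ∑ l, ‖star (b l) (b l η)‖ ^ 2 ≤ 2 * n * σ := by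
    have h1 : ‖∑ l, star (b l) (b l η)‖ ^ 2 ≤ n * σ :=
      sum_apply_sq_le (fun i => star (b i)) (fun i => by rw [norm_star]; exact hb i) (fun l => b l η)
    have h2 : ∑ l, ∑ j, ‖star (b j) (b l η)‖ ^ 2 ≤ n * σ := by
      rw [hσ, Finset.mul_sum]
      refine Finset.sum_le_sum fun l _ => ?_
      calc ∑ j, ‖star (b j) (b l η)‖ ^ 2 ≤ ∑ _j : Fin n, ‖b l η‖ ^ 2 := by
            refine Finset.sum_le_sum fun j _ => ?_
            have : ‖star (b j) (b l η)‖ ≤ ‖b l η‖ := by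
              calc _ ≤ ‖star (b j)‖ * ‖b l η‖ := ContinuousLinearMap.le_opNorm _ _
                _ ≤ 1 * ‖b l η‖ := by rw [norm_star]; gcongr; exact hb j
                _ = _ := one_mul _
            gcongr
        _ = n * ‖b l η‖ ^ 2 := by simp
    have h3 : 0 ≤ ∑ l, ‖star (b l) (b l η)‖ ^ 2 := Finset.sum_nonneg fun i _ => by positivity
    linarith
  have hD : ‖⟪ξ, (∑ l, a l * (b l * (star (b l) * b l))) η⟫_ℂ‖ ≤ Real.sqrt ρ * Real.sqrt σ := by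
    rw [_root_.sum_apply, inner_sum]
    have hpt : ∀ l, ‖⟪ξ, (a l * (b l * (star (b l) * b l))) η⟫_ℂ‖ ≤ ‖star (b l) ξ‖ * ‖b l η‖ := by
      intro l
      have e1 : (a l * (b l * (star (b l) * b l))) η = b l (a l (star (b l) (b l η))) := by
        rw [← mul_assoc, hab]; rfl
      have e2 : ⟪ξ, b l (a l (star (b l) (b l η)))⟫_ℂ = ⟪star (b l) ξ, a l (star (b l) (b l η))⟫_ℂ := by
        rw [ContinuousLinearMap.star_eq_adjoint, ContinuousLinearMap.adjoint_inner_left]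
      rw [e1, e2]
      calc _ ≤ ‖star (b l) ξ‖ * ‖a l (star (b l) (b l η))‖ := norm_inner_le_norm _ _
        _ ≤ ‖star (b l) ξ‖ * (‖a l‖ * (‖star (b l)‖ * ‖b l η‖)) := by
          gcongr
          exact ((a l).le_opNorm _).trans (by gcongr; exact ContinuousLinearMap.le_opNorm _ _)
        _ ≤ ‖star (b l) ξ‖ * (1 * (1 * ‖b l η‖)) := by
          rw [norm_star]; gcongr
          · exact ha1 l
          · exact hb l
        _ = _ := by ring
    refine (norm_sum_le _ _).trans ((Finset.sum_le_sum fun l _ => hpt l).trans ?_)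
    exact Real.sum_mul_le_sqrt_mul_sqrt _ _ _
  have e : (∑ i, a i * b i) ((∑ j, star (b j) * b j) η) + (∑ j, b j * star (b j)) ((∑ i, a i * b i) η) =
      ((∑ l, a l * b l) * (∑ j, star (b j) * b j) + (∑ j, b j * star (b j)) * (∑ l, a l * b l) -
        ∑ l, a l * (b l * (star (b l) * b l))) η + (∑ l, a l * (b l * (star (b l) * b l))) η := by
    rw [← _root_.add_apply, sub_add_cancel]
    rfl
  rw [e, inner_add_right]
  have h1 : Real.sqrt (‖∑ l, star (b l) (b l η)‖ ^ 2 + ∑ l, ∑ j, ‖star (b j) (b l η)‖ ^ 2 -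
        ∑ l, ‖star (b l) (b l η)‖ ^ 2) ≤ Real.sqrt (2 * n) * Real.sqrt σ := by
    rw [← Real.sqrt_mul (by positivity)]
    exact Real.sqrt_le_sqrt hQ
  calc _ ≤ _ := norm_add_le _ _
    _ ≤ Real.sqrt ρ * (Real.sqrt (2 * n) * Real.sqrt σ) + Real.sqrt ρ * Real.sqrt σ := by
      gcongr
      exact h.trans (by gcongr)
    _ = _ := by ring

end

end Pool.Agent.Helper547.Alpha
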