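import Mathlib
import Pool.Agent.Helper547.Alpha.CoreLinf

set_option autoImplicit false

open scoped InnerProductSpace

open Finset ComplexConjugate Filter Topology
open scoped Matrix.Norms.L2Operator ComplexOrder
open Matrix

namespace Pool.Agent.Helper547.Alpha

section
variable {ι κ : Type*} [Fintype ι] [Fintype κ] [DecidableEq ι] [DecidableEq κ]

omit [DecidableEq ι] in
lemma l2_le_iff (A : Matrix ι κ ℂ) {C : ℝ} (hC : 0 ≤ C) :
    ‖A‖ ≤ C ↔ ∀ x : κ → ℂ, ∑ i, ‖(A *ᵥ x) i‖ ^ 2 ≤ C ^ 2 * ∑ j, ‖x j‖ ^ 2 := by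
  rw [Matrix.l2_opNorm_def, ContinuousLinearMap.opNorm_le_iff hC]
  constructor
  · intro h x
    have h1 := h (WithLp.toLp 2 x)
    have h2 := pow_le_pow_left₀ (norm_nonneg _) h1 2
    rw [mul_pow, EuclideanSpace.norm_eq, EuclideanSpace.norm_eq, Real.sq_sqrt (by positivity), Real.sq_sqrt (by positivity)] at h2
    exact h2
  · intro h x
    have h1 := h x.ofLp
    rw [EuclideanSpace.norm_eq, EuclideanSpace.norm_eq]
    have h3 : C * √(∑ i, ‖x.ofLp i‖ ^ 2) = √(C ^ 2 * ∑ i, ‖x.ofLp i‖ ^ 2) := by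
      rw [Real.sqrt_mul (by positivity), Real.sqrt_sq hC]
    rw [h3]
    exact Real.sqrt_le_sqrt h1

omit [DecidableEq ι] [DecidableEq κ] in
lemma sum_norm_sq_mulVec (A : Matrix ι κ ℂ) (x : κ → ℂ) :
    ((∑ i, ‖(A *ᵥ x) i‖ ^ 2 : ℝ) : ℂ) = star x ⬝ᵥ ((Aᴴ * A) *ᵥ x) := by
  have h1 : star x ⬝ᵥ ((Aᴴ * A) *ᵥ x) = star (A *ᵥ x) ⬝ᵥ (A *ᵥ x) := by
    rw [← Matrix.mulVec_mulVec, Matrix.dotProduct_mulVec, Matrix.star_mulVec]
  rw [h1]
  simp only [dotProduct, Pi.star_apply]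
  push_cast
  refine Finset.sum_congr rfl fun i _ => ?_
  rw [RCLike.star_def, mul_comm, Complex.mul_conj, Complex.normSq_eq_norm_sq]
  push_cast; rfl

omit [DecidableEq ι] in
lemma psd_of_norm_le {A : Matrix ι κ ℂ} {C : ℝ} (hC : 0 ≤ C) (h : ‖A‖ ≤ C) :
    (((C ^ 2 : ℝ) : ℂ) • (1 : Matrix κ κ ℂ) - Aᴴ * A).PosSemidef := by
  have hH : (((C ^ 2 : ℝ) : ℂ) • (1 : Matrix κ κ ℂ) - Aᴴ * A).IsHermitian := by
    refine Matrix.IsHermitian.sub ?_ (Matrix.isHermitian_conjTranspose_mul_self A)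
    rw [Matrix.IsHermitian, conjTranspose_smul, conjTranspose_one, RCLike.star_def, Complex.conj_ofReal]
  refine Matrix.PosSemidef.of_dotProduct_mulVec_nonneg hH ?_
  intro x
  have h1 := (l2_le_iff A hC).1 h x
  have h2 : star x ⬝ᵥ ((((C ^ 2 : ℝ) : ℂ) • (1 : Matrix κ κ ℂ) - Aᴴ * A) *ᵥ x) =
      ((C ^ 2 * ∑ j, ‖x j‖ ^ 2 - ∑ i, ‖(A *ᵥ x) i‖ ^ 2 : ℝ) : ℂ) := by
    rw [Matrix.sub_mulVec, Matrix.smul_mulVec, Matrix.one_mulVec, dotProduct_sub, dotProduct_smul, ← sum_norm_sq_mulVec]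
    push_cast
    congr 1
    rw [smul_eq_mul]
    congr 1
    simp only [dotProduct, Pi.star_apply]
    refine Finset.sum_congr rfl fun i _ => ?_
    rw [RCLike.star_def, mul_comm, Complex.mul_conj, Complex.normSq_eq_norm_sq]
    push_cast; rfl
  rw [h2]
  rw [Complex.zero_le_real]
  linarith

end

section
variable {m : ℕ} {H : Type*} [NormedAddCommGroup H] [InnerProductSpace ℂ H]


lemma exists_factor {ι : Type*} [Fintype ι] [DecidableEq ι] {M : Matrix ι ι ℂ} (h : M.PosSemidef) :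
    ∃ B : Matrix ι ι ℂ, Bᴴ * B = M := by
  open scoped MatrixOrder in
  refine ⟨CFC.sqrt M, ?_⟩
  have h0 : 0 ≤ M := Matrix.nonneg_iff_posSemidef.mpr h
  have h1 : 0 ≤ CFC.sqrt M := CFC.sqrt_nonneg M
  have h2 : (CFC.sqrt M).IsHermitian := (Matrix.nonneg_iff_posSemidef.mp h1).1
  rw [h2.eq]
  exact CFC.sqrt_mul_sqrt_self M h0

/-- Gram expansion for a scalar matrix acting on vectors of a Hilbert space -/
lemma sum_norm_sq_gram {p : ℕ} (M : Matrix (Fin p) (Fin m) ℂ) (ξ : Fin m → H) :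
    ((∑ i, ‖∑ j, M i j • ξ j‖ ^ 2 : ℝ) : ℂ) = ∑ j, ∑ k, (Mᴴ * M) j k * ⟪ξ j, ξ k⟫_ℂ := by
  rw [Complex.ofReal_sum]
  have h : ∀ i : Fin p, ((‖∑ j, M i j • ξ j‖ ^ 2 : ℝ) : ℂ) = ∑ j, ∑ k, (M i k * conj (M i j)) * ⟪ξ j, ξ k⟫_ℂ :=
    fun i => normsq_expand (fun j => M i j) ξ
  simp only [h]
  rw [Finset.sum_comm]
  refine Finset.sum_congr rfl fun j _ => ?_
  rw [Finset.sum_comm]
  refine Finset.sum_congr rfl fun k _ => ?_
  rw [← Finset.sum_mul]
  congr 1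
  rw [Matrix.mul_apply]
  refine Finset.sum_congr rfl fun i _ => ?_
  rw [conjTranspose_apply, RCLike.star_def, mul_comm]

lemma mat_vec_le (M : Matrix (Fin m) (Fin m) ℂ) (ξ : Fin m → H) :
    ∑ i, ‖∑ j, M i j • ξ j‖ ^ 2 ≤ ‖M‖ ^ 2 * ∑ j, ‖ξ j‖ ^ 2 := by
  have hpsd := psd_of_norm_le (norm_nonneg M) (le_refl ‖M‖)
  obtain ⟨B, hB⟩ := exists_factor hpsd
  have h1 := sum_norm_sq_gram M ξ
  have h2 := sum_norm_sq_gram B ξ
  have h3 : ((∑ i, ‖∑ j, B i j • ξ j‖ ^ 2 : ℝ) : ℂ) =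
      ((‖M‖ ^ 2 * ∑ j, ‖ξ j‖ ^ 2 - ∑ i, ‖∑ j, M i j • ξ j‖ ^ 2 : ℝ) : ℂ) := by
    rw [h2, hB, Complex.ofReal_sub, h1]
    simp only [Matrix.sub_apply, sub_mul, Finset.sum_sub_distrib]
    congr 1
    push_cast
    rw [Finset.mul_sum]
    refine Finset.sum_congr rfl fun j _ => ?_
    rw [Finset.sum_eq_single j]
    · rw [Matrix.smul_apply, Matrix.one_apply_eq, inner_self_eq_norm_sq_to_K]
      simp
    · intro k _ hk
      rw [Matrix.smul_apply, Matrix.one_apply_ne (Ne.symm hk)]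
      simp
    · simp
  have h4 : ∑ i, ‖∑ j, B i j • ξ j‖ ^ 2 = ‖M‖ ^ 2 * ∑ j, ‖ξ j‖ ^ 2 - ∑ i, ‖∑ j, M i j • ξ j‖ ^ 2 := by
    exact_mod_cast h3
  have h5 : 0 ≤ ∑ i, ‖∑ j, B i j • ξ j‖ ^ 2 := Finset.sum_nonneg fun i _ => by positivity
  linarith

/-- the Hilbert sum of `m` copies of `H` -/
abbrev HK (m : ℕ) (H : Type*) [NormedAddCommGroup H] [InnerProductSpace ℂ H] : Type _ :=
  PiLp 2 (fun _ : Fin m => H)

lemma hk_norm_sq (ξ : HK m H) : ‖ξ‖ ^ 2 = ∑ i, ‖ξ i‖ ^ 2 := by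
  rw [PiLp.norm_sq_eq_of_L2]

/-- scalar matrix acting on `H^m` -/
noncomputable def matOp (H : Type*) [NormedAddCommGroup H] [InnerProductSpace ℂ H]
    (M : Matrix (Fin m) (Fin m) ℂ) : HK m H →L[ℂ] HK m H :=
  LinearMap.mkContinuous
    { toFun := fun ξ => WithLp.toLp 2 (fun i => ∑ j, M i j • ξ j)
      map_add' := by
        intro ξ η
        ext i
        simp [Finset.sum_add_distrib]
      map_smul' := by
        intro c ξ
        ext i
        simp [Finset.smul_sum, smul_smul, mul_comm] } ‖M‖ (by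
    intro ξ
    have h := mat_vec_le M (fun j => ξ j)
    have h2 : ‖(WithLp.toLp 2 (fun i => ∑ j, M i j • ξ j) : HK m H)‖ ^ 2 ≤ (‖M‖ * ‖ξ‖) ^ 2 := by
      rw [hk_norm_sq, mul_pow, hk_norm_sq]
      exact h
    exact le_of_sq_le_sq h2 (by positivity))

lemma matOp_apply (M : Matrix (Fin m) (Fin m) ℂ) (ξ : HK m H) (i : Fin m) :
    matOp H M ξ i = ∑ j, M i j • ξ j := rfl

lemma matOp_norm_le (M : Matrix (Fin m) (Fin m) ℂ) : ‖matOp H M‖ ≤ ‖M‖ :=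
  LinearMap.mkContinuous_norm_le _ (norm_nonneg _) _

/-- diagonal action of an operator on `H^m` -/
noncomputable def diagOp (m : ℕ) (b : H →L[ℂ] H) : HK m H →L[ℂ] HK m H :=
  LinearMap.mkContinuous
    { toFun := fun ξ => WithLp.toLp 2 (fun i => b (ξ i))
      map_add' := by
        intro ξ η
        ext i
        simp
      map_smul' := by
        intro c ξ
        ext i
        simp } ‖b‖ (by
    intro ξ
    have h2 : ‖(WithLp.toLp 2 (fun i => b (ξ i)) : HK m H)‖ ^ 2 ≤ (‖b‖ * ‖ξ‖) ^ 2 := by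
      rw [hk_norm_sq, mul_pow, hk_norm_sq, Finset.mul_sum]
      refine Finset.sum_le_sum fun i _ => ?_
      calc ‖b (ξ i)‖ ^ 2 ≤ (‖b‖ * ‖ξ i‖) ^ 2 := by gcongr; exact b.le_opNorm _
        _ = _ := by ring
    exact le_of_sq_le_sq h2 (by positivity))

lemma diagOp_apply (b : H →L[ℂ] H) (ξ : HK m H) (i : Fin m) : diagOp m b ξ i = b (ξ i) := rfl

lemma diagOp_norm_le (b : H →L[ℂ] H) : ‖diagOp m b‖ ≤ ‖b‖ :=
  LinearMap.mkContinuous_norm_le _ (norm_nonneg _) _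

lemma mat_diag_comm (M : Matrix (Fin m) (Fin m) ℂ) (b : H →L[ℂ] H) :
    matOp H M * diagOp m b = diagOp m b * matOp H M := by
  ext ξ i
  change ∑ j, M i j • b (ξ j) = b (∑ j, M i j • ξ j)
  rw [map_sum]
  simp

lemma diagOp_sum {n : ℕ} (z : Fin n → ℂ) (b : Fin n → H →L[ℂ] H) :
    diagOp m (∑ i, z i • b i) = ∑ i, z i • diagOp m (b i) := by
  ext ξ i
  rw [diagOp_apply]
  simp [_root_.sum_apply, diagOp_apply]

lemma matOp_sum {n : ℕ} (z : Fin n → ℂ) (M : Fin n → Matrix (Fin m) (Fin m) ℂ) :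
    matOp H (∑ i, z i • M i) = ∑ i, z i • matOp H (M i) := by
  ext ξ i
  rw [matOp_apply]
  simp only [_root_.sum_apply, _root_.smul_apply, WithLp.ofLp_sum, Finset.sum_apply, PiLp.smul_apply,
    matOp_apply, Matrix.sum_apply, Matrix.smul_apply, Finset.sum_smul, Finset.smul_sum, smul_smul, smul_eq_mul]
  rw [Finset.sum_comm]

section
variable [CompleteSpace H]

lemma diagOp_star (b : H →L[ℂ] H) : star (diagOp m b) = diagOp m (star b) := by
  rw [ContinuousLinearMap.star_eq_adjoint, ContinuousLinearMap.star_eq_adjoint]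
  symm
  rw [ContinuousLinearMap.eq_adjoint_iff]
  intro x y
  rw [PiLp.inner_apply, PiLp.inner_apply]
  refine Finset.sum_congr rfl fun i _ => ?_
  rw [diagOp_apply, diagOp_apply, ContinuousLinearMap.adjoint_inner_left]

lemma matOp_star (M : Matrix (Fin m) (Fin m) ℂ) : star (matOp H M) = matOp H Mᴴ := by
  rw [ContinuousLinearMap.star_eq_adjoint]
  symm
  rw [ContinuousLinearMap.eq_adjoint_iff]
  intro x y
  rw [PiLp.inner_apply, PiLp.inner_apply]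
  simp only [matOp_apply, sum_inner, inner_sum, inner_smul_left, inner_smul_right, conjTranspose_apply]
  rw [Finset.sum_comm]
  simp

end

end

end Pool.Agent.Helper547.Alpha
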