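import Mathlib
import Pool.Agent.Helper547.Alpha.Tensor

set_option autoImplicit false

open Finset ComplexConjugate Filter Topology
open scoped Matrix.Norms.L2Operator ComplexOrder
open Matrix

namespace Pool.Agent.Helper547.Alpha

/-- symmetric Hermitian anticommuting unitaries -/
structure Cliff {ι : Type} [Fintype ι] [DecidableEq ι] {n : ℕ} (γ : Fin n → Matrix ι ι ℂ) : Prop where
  herm : ∀ i, (γ i)ᴴ = γ i
  symm : ∀ i, (γ i)ᵀ = γ i
  sq : ∀ i, γ i * γ i = 1
  anti : ∀ i j, i ≠ j → γ i * γ j + γ j * γ i = 0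

lemma exists_cliff (n : ℕ) : ∃ (ι : Type) (_ : Fintype ι) (_ : DecidableEq ι) (_ : Nonempty ι)
    (γ : Fin n → Matrix ι ι ℂ), Cliff γ := by
  induction n with
  | zero => exact ⟨Unit, inferInstance, inferInstance, inferInstance, fun i => i.elim0,
      ⟨fun i => i.elim0, fun i => i.elim0, fun i => i.elim0, fun i => i.elim0⟩⟩
  | succ n ih =>
    obtain ⟨ι, h1, h2, h3, γ, hγ⟩ := ih
    refine ⟨ι ⊕ ι, inferInstance, inferInstance, inferInstance,
      Fin.snoc (fun i => fromBlocks (γ i) 0 0 (-γ i)) (fromBlocks 0 1 1 0), ?_⟩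
    constructor
    · intro i
      refine Fin.lastCases ?_ (fun i => ?_) i
      · simp [fromBlocks_conjTranspose]
      · simp [fromBlocks_conjTranspose, hγ.herm]
    · intro i
      refine Fin.lastCases ?_ (fun i => ?_) i
      · simp [fromBlocks_transpose]
      · simp [fromBlocks_transpose, hγ.symm]
    · intro i
      refine Fin.lastCases ?_ (fun i => ?_) i
      · simp [fromBlocks_multiply]
      · simp [fromBlocks_multiply, hγ.sq]
    · intro i j
      refine Fin.lastCases ?_ (fun i => ?_) i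
      · refine Fin.lastCases ?_ (fun j => ?_) j
        · intro h; exact absurd rfl h
        · intro _
          simp [fromBlocks_multiply, fromBlocks_add]
      · refine Fin.lastCases ?_ (fun j => ?_) j
        · intro _
          simp [fromBlocks_multiply, fromBlocks_add]
        · intro h
          have hij : i ≠ j := fun e => h (by rw [e])
          simp [fromBlocks_multiply, fromBlocks_add, hγ.anti i j hij]

lemma exists_cliff_fin (n : ℕ) : ∃ (N : ℕ) (γ : Fin n → Matrix (Fin N) (Fin N) ℂ), 0 < N ∧ Cliff γ := by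
  obtain ⟨ι, h1, h2, h3, γ, hγ⟩ := exists_cliff n
  set e := Fintype.equivFin ι
  refine ⟨Fintype.card ι, fun i => (γ i).submatrix e.symm e.symm, Fintype.card_pos, ?_⟩
  constructor
  · intro i
    rw [conjTranspose_submatrix, hγ.herm]
  · intro i
    rw [transpose_submatrix, hγ.symm]
  · intro i
    rw [submatrix_mul_equiv, hγ.sq, submatrix_one_equiv]
  · intro i j hij
    rw [submatrix_mul_equiv, submatrix_mul_equiv]
    change (γ i * γ j + γ j * γ i).submatrix e.symm e.symm = 0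
    rw [hγ.anti i j hij]
    rfl

section
variable {n N : ℕ} {γ : Fin n → Matrix (Fin N) (Fin N) ℂ}

lemma cliff_norm_le (h : Cliff γ) (i : Fin n) : ‖γ i‖ ≤ 1 := by
  rw [l2_le_iff _ zero_le_one]
  intro x
  have h1 := sum_norm_sq_mulVec (γ i) x
  rw [h.herm, h.sq, one_mulVec] at h1
  have h2 : star x ⬝ᵥ x = ((∑ j, ‖x j‖ ^ 2 : ℝ) : ℂ) := by
    simp only [dotProduct, Pi.star_apply]
    push_cast
    refine Finset.sum_congr rfl fun i _ => ?_
    rw [RCLike.star_def, mul_comm, Complex.mul_conj, Complex.normSq_eq_norm_sq]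
    push_cast; rfl
  rw [h2] at h1
  have h3 : ∑ j, ‖(γ i *ᵥ x) j‖ ^ 2 = ∑ j, ‖x j‖ ^ 2 := by exact_mod_cast h1
  rw [h3]; simp

lemma cliff_anticomm (h : Cliff γ) (z : Fin n → ℂ) :
    (∑ i, z i • γ i)ᴴ * (∑ i, z i • γ i) + (∑ i, z i • γ i) * (∑ i, z i • γ i)ᴴ =
      ((2 * ∑ i, ‖z i‖ ^ 2 : ℝ) : ℂ) • (1 : Matrix (Fin N) (Fin N) ℂ) := by
  have e1 : (∑ i, z i • γ i)ᴴ = ∑ i, conj (z i) • γ i := by
    rw [conjTranspose_sum]
    refine Finset.sum_congr rfl fun i _ => ?_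
    rw [conjTranspose_smul, h.herm]; rfl
  rw [e1]
  have e2 : (∑ i, conj (z i) • γ i) * (∑ j, z j • γ j) + (∑ j, z j • γ j) * (∑ i, conj (z i) • γ i) =
      ∑ i, ∑ j, (conj (z i) * z j) • (γ i * γ j + γ j * γ i) := by
    have p1 : (∑ i, conj (z i) • γ i) * (∑ j, z j • γ j) =
        ∑ i, ∑ j, (conj (z i) * z j) • (γ i * γ j) := by
      rw [Finset.sum_mul_sum]
      refine Finset.sum_congr rfl fun i _ => Finset.sum_congr rfl fun j _ => ?_
      rw [smul_mul_smul_comm]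
    have p2 : (∑ j, z j • γ j) * (∑ i, conj (z i) • γ i) =
        ∑ i, ∑ j, (conj (z i) * z j) • (γ j * γ i) := by
      rw [Finset.sum_mul_sum, Finset.sum_comm]
      refine Finset.sum_congr rfl fun i _ => Finset.sum_congr rfl fun j _ => ?_
      rw [smul_mul_smul_comm, mul_comm (z j)]
    rw [p1, p2, ← Finset.sum_add_distrib]
    refine Finset.sum_congr rfl fun i _ => ?_
    rw [← Finset.sum_add_distrib]
    refine Finset.sum_congr rfl fun j _ => ?_
    rw [smul_add]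
  rw [e2]
  have e3 : ∀ i : Fin n, ∑ j, (conj (z i) * z j) • (γ i * γ j + γ j * γ i) =
      ((2 * ‖z i‖ ^ 2 : ℝ) : ℂ) • (1 : Matrix (Fin N) (Fin N) ℂ) := by
    intro i
    rw [Finset.sum_eq_single i]
    · rw [h.sq, ← two_smul ℂ (1 : Matrix (Fin N) (Fin N) ℂ), smul_smul]
      congr 1
      rw [mul_comm (conj (z i)), Complex.mul_conj, Complex.normSq_eq_norm_sq]
      push_cast; ring
    · intro j _ hj
      rw [h.anti i j (Ne.symm hj), smul_zero]
    · simp
  simp only [e3]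
  rw [← Finset.sum_smul]
  congr 1
  push_cast
  rw [Finset.mul_sum]

lemma cliff_sum_norm (h : Cliff γ) (z : Fin n → ℂ) :
    ‖∑ i, z i • γ i‖ ≤ Real.sqrt (2 * ∑ i, ‖z i‖ ^ 2) := by
  set A := ∑ i, z i • γ i with hA
  rw [l2_le_iff _ (Real.sqrt_nonneg _)]
  intro x
  rw [Real.sq_sqrt (by positivity)]
  have h1 := sum_norm_sq_mulVec A x
  have h2 := sum_norm_sq_mulVec Aᴴ x
  rw [conjTranspose_conjTranspose] at h2
  have h3 : star x ⬝ᵥ x = ((∑ j, ‖x j‖ ^ 2 : ℝ) : ℂ) := by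
    simp only [dotProduct, Pi.star_apply]
    push_cast
    refine Finset.sum_congr rfl fun i _ => ?_
    rw [RCLike.star_def, mul_comm, Complex.mul_conj, Complex.normSq_eq_norm_sq]
    push_cast; rfl
  have h4 : ((∑ i, ‖(A *ᵥ x) i‖ ^ 2 + ∑ i, ‖(Aᴴ *ᵥ x) i‖ ^ 2 : ℝ) : ℂ) =
      ((2 * ∑ i, ‖z i‖ ^ 2 * (∑ j, ‖x j‖ ^ 2) : ℝ) : ℂ) := by
    rw [Complex.ofReal_add, h1, h2, ← dotProduct_add, ← add_mulVec, hA, cliff_anticomm h, smul_mulVec,
      one_mulVec, dotProduct_smul, h3, smul_eq_mul]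
    push_cast
    rw [← Finset.sum_mul]
    ring
  have h5 : ∑ i, ‖(A *ᵥ x) i‖ ^ 2 + ∑ i, ‖(Aᴴ *ᵥ x) i‖ ^ 2 =
      2 * ∑ i, ‖z i‖ ^ 2 * (∑ j, ‖x j‖ ^ 2) := by exact_mod_cast h4
  have h6 : 0 ≤ ∑ i, ‖(Aᴴ *ᵥ x) i‖ ^ 2 := Finset.sum_nonneg fun i _ => by positivity
  rw [← Finset.sum_mul] at h5
  linarith

end

end Pool.Agent.Helper547.Alpha
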