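import Mathlib

set_option autoImplicit false

open scoped Matrix.Norms.L2Operator

namespace Pool.Agent.Helper547.Alpha

/-- The norm of an `m × m` matrix of bounded operators on a Hilbert space `H`: its operator norm as an
operator on the Hilbert space direct sum of `m` copies of `H`. -/
noncomputable def opNorm (H : Type) [NormedAddCommGroup H] [InnerProductSpace ℂ H] (m : ℕ)
    (T : Matrix (Fin m) (Fin m) (H →L[ℂ] H)) : ℝ :=
  sInf {C : ℝ | 0 ≤ C ∧ ∀ ξ : Fin m → H, ∑ i, ‖∑ j, T i j (ξ j)‖ ^ 2 ≤ C ^ 2 * ∑ j, ‖ξ j‖ ^ 2}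

/-- The norm of `M_m(min E)`: the supremum of the norms of the scalar matrices `(f (x i j))` over the
functionals `f` of norm at most one. Scalar matrices carry the operator norm on Euclidean space. -/
noncomputable def minNorm {E : Type} [NormedAddCommGroup E] [NormedSpace ℂ E] (m : ℕ)
    (x : Matrix (Fin m) (Fin m) E) : ℝ :=
  sSup {r : ℝ | ∃ f : E →L[ℂ] ℂ, ‖f‖ ≤ 1 ∧ r = ‖x.map f‖}

/-- The norm of `M_m(max E)`: the supremum of the norms of `(u (x i j))` over all Hilbert spaces `H`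
and all linear maps `u : E → B(H)` of norm at most one. -/
noncomputable def maxNorm {E : Type} [NormedAddCommGroup E] [NormedSpace ℂ E] (m : ℕ)
    (x : Matrix (Fin m) (Fin m) E) : ℝ :=
  sSup {r : ℝ | ∃ (H : Type) (_ : NormedAddCommGroup H) (_ : InnerProductSpace ℂ H)
    (_ : CompleteSpace H) (u : E →L[ℂ] (H →L[ℂ] H)), ‖u‖ ≤ 1 ∧ r = opNorm H m (x.map u)}

/-- `α(E) = ‖id : min(E) → max(E)‖_cb`, the supremum of `‖x‖_{M_m(max E)}` over all `m` and all
`x ∈ M_m(E)` with `‖x‖_{M_m(min E)} ≤ 1`. -/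
noncomputable def alpha (E : Type) [NormedAddCommGroup E] [NormedSpace ℂ E] : ℝ :=
  sSup {r : ℝ | ∃ (m : ℕ) (x : Matrix (Fin m) (Fin m) E), minNorm m x ≤ 1 ∧ r = maxNorm m x}

end Pool.Agent.Helper547.Alpha
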