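import Mathlib
import Pool.Agent.Helper547.Alpha.Defs
import Pool.Agent.Helper547.Alpha.Tensor

set_option autoImplicit false

open Finset ComplexConjugate Filter Topology
open scoped Matrix.Norms.L2Operator ComplexOrder
open Matrix

namespace Pool.Agent.Helper547.Alpha

section
variable {E : Type} [NormedAddCommGroup E] [NormedSpace ℂ E] {m : ℕ}

lemma opNorm_le {H : Type} [NormedAddCommGroup H] [InnerProductSpace ℂ H]
    {T : Matrix (Fin m) (Fin m) (H →L[ℂ] H)} {C : ℝ} (hC : 0 ≤ C)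
    (h : ∀ ξ : Fin m → H, ∑ i, ‖∑ j, T i j (ξ j)‖ ^ 2 ≤ C ^ 2 * ∑ j, ‖ξ j‖ ^ 2) : opNorm H m T ≤ C :=
  csInf_le ⟨0, fun _ hc => hc.1⟩ ⟨hC, h⟩

lemma opNorm_nonneg {H : Type} [NormedAddCommGroup H] [InnerProductSpace ℂ H]
    (T : Matrix (Fin m) (Fin m) (H →L[ℂ] H)) : 0 ≤ opNorm H m T :=
  Real.sInf_nonneg fun _ hc => hc.1

lemma frob_bound (M : Matrix (Fin m) (Fin m) ℂ) : ‖M‖ ≤ Real.sqrt (∑ i, ∑ j, ‖M i j‖ ^ 2) := by
  rw [l2_le_iff M (Real.sqrt_nonneg _)]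
  intro x
  rw [Real.sq_sqrt (Finset.sum_nonneg fun i _ => Finset.sum_nonneg fun j _ => by positivity),
    Finset.sum_mul]
  refine Finset.sum_le_sum fun i _ => ?_
  have h1 : ‖(M *ᵥ x) i‖ ≤ ∑ j, ‖M i j‖ * ‖x j‖ := by
    rw [Matrix.mulVec, dotProduct]
    refine (norm_sum_le _ _).trans (Finset.sum_le_sum fun j _ => ?_)
    rw [norm_mul]
  calc ‖(M *ᵥ x) i‖ ^ 2 ≤ (∑ j, ‖M i j‖ * ‖x j‖) ^ 2 := by gcongr
    _ ≤ (∑ j, ‖M i j‖ ^ 2) * ∑ j, ‖x j‖ ^ 2 := Finset.sum_mul_sq_le_sq_mul_sq _ _ _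

lemma minSet_bdd (x : Matrix (Fin m) (Fin m) E) :
    BddAbove {r : ℝ | ∃ f : E →L[ℂ] ℂ, ‖f‖ ≤ 1 ∧ r = ‖x.map f‖} := by
  refine ⟨Real.sqrt (∑ i, ∑ j, ‖x i j‖ ^ 2), ?_⟩
  rintro r ⟨f, hf, rfl⟩
  refine (frob_bound _).trans (Real.sqrt_le_sqrt ?_)
  refine Finset.sum_le_sum fun i _ => Finset.sum_le_sum fun j _ => ?_
  rw [Matrix.map_apply]
  have : ‖f (x i j)‖ ≤ ‖x i j‖ := by
    calc _ ≤ ‖f‖ * ‖x i j‖ := f.le_opNorm _
      _ ≤ 1 * ‖x i j‖ := by gcongr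
      _ = _ := one_mul _
  gcongr

lemma map_le_of_minNorm {x : Matrix (Fin m) (Fin m) E} (hx : minNorm m x ≤ 1) (f : E →L[ℂ] ℂ)
    (hf : ‖f‖ ≤ 1) : ‖x.map f‖ ≤ 1 :=
  (le_csSup (minSet_bdd x) ⟨f, hf, rfl⟩).trans hx

lemma minNorm_le {x : Matrix (Fin m) (Fin m) E} {C : ℝ}
    (h : ∀ f : E →L[ℂ] ℂ, ‖f‖ ≤ 1 → ‖x.map f‖ ≤ C) : minNorm m x ≤ C := by
  apply csSup_le
  · exact ⟨_, 0, by simp, rfl⟩
  · rintro r ⟨f, hf, rfl⟩
    exact h f hf

lemma maxNorm_le {x : Matrix (Fin m) (Fin m) E} {C : ℝ}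
    (h : ∀ (H : Type) [NormedAddCommGroup H] [InnerProductSpace ℂ H] [CompleteSpace H]
      (u : E →L[ℂ] (H →L[ℂ] H)), ‖u‖ ≤ 1 → opNorm H m (x.map u) ≤ C) : maxNorm m x ≤ C := by
  apply csSup_le
  · exact ⟨_, ℂ, inferInstance, inferInstance, inferInstance, 0, by simp, rfl⟩
  · rintro r ⟨H, h1, h2, h3, u, hu, rfl⟩
    exact @h H h1 h2 h3 u hu

lemma le_maxNorm {x : Matrix (Fin m) (Fin m) E} {C : ℝ}
    (h : ∀ (H : Type) [NormedAddCommGroup H] [InnerProductSpace ℂ H] [CompleteSpace H]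
      (u : E →L[ℂ] (H →L[ℂ] H)), ‖u‖ ≤ 1 → opNorm H m (x.map u) ≤ C)
    (H : Type) [h1 : NormedAddCommGroup H] [h2 : InnerProductSpace ℂ H] [h3 : CompleteSpace H]
      (u : E →L[ℂ] (H →L[ℂ] H)) (hu : ‖u‖ ≤ 1) : opNorm H m (x.map u) ≤ maxNorm m x := by
  apply le_csSup
  · refine ⟨C, ?_⟩
    rintro r ⟨H, h1, h2, h3, u, hu, rfl⟩
    exact @h H h1 h2 h3 u hu
  · exact ⟨H, h1, h2, h3, u, hu, rfl⟩

/-- the uniform upper bound -/
def UB (E : Type) [NormedAddCommGroup E] [NormedSpace ℂ E] (C : ℝ) : Prop :=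
  ∀ (m : ℕ) (x : Matrix (Fin m) (Fin m) E), minNorm m x ≤ 1 →
    ∀ (H : Type) [NormedAddCommGroup H] [InnerProductSpace ℂ H] [CompleteSpace H]
      (u : E →L[ℂ] (H →L[ℂ] H)), ‖u‖ ≤ 1 → opNorm H m (x.map u) ≤ C

lemma alpha_le {C : ℝ} (h : UB E C) : alpha E ≤ C := by
  apply csSup_le
  · exact ⟨_, 0, 0, minNorm_le (fun f _ => by simp), rfl⟩
  · rintro r ⟨m, x, hx, rfl⟩
    exact maxNorm_le (h m x hx)

lemma le_alpha {C : ℝ} (h : UB E C) (x : Matrix (Fin m) (Fin m) E) (hx : minNorm m x ≤ 1)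
    (H : Type) [NormedAddCommGroup H] [InnerProductSpace ℂ H] [CompleteSpace H]
      (u : E →L[ℂ] (H →L[ℂ] H)) (hu : ‖u‖ ≤ 1) : opNorm H m (x.map u) ≤ alpha E := by
  refine (le_maxNorm (h m x hx) H u hu).trans ?_
  apply le_csSup
  · refine ⟨C, ?_⟩
    rintro r ⟨m, x, hx, rfl⟩
    exact maxNorm_le (h m x hx)
  · exact ⟨m, x, hx, rfl⟩

end

section
variable {n m : ℕ}

/-- the tensor as an operator on `H^m` -/
lemma opNorm_le_tensor {E : Type} [NormedAddCommGroup E] [NormedSpace ℂ E]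
    {H : Type} [NormedAddCommGroup H] [InnerProductSpace ℂ H]
    (x : Matrix (Fin m) (Fin m) E) (u : E →L[ℂ] (H →L[ℂ] H))
    (M : Fin n → Matrix (Fin m) (Fin m) ℂ) (e : Fin n → E)
    (hx : ∀ i j, x i j = ∑ l, M l i j • e l) {C : ℝ}
    (h : ‖∑ l, matOp H (M l) * diagOp m (u (e l))‖ ≤ C) : opNorm H m (x.map u) ≤ C := by
  have hC : 0 ≤ C := le_trans (ContinuousLinearMap.opNorm_nonneg _) h
  apply opNorm_le hC
  intro ξ
  set ζ : HK m H := WithLp.toLp 2 ξ with hζ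
  have e1 : ∀ i, ∑ j, (x.map u) i j (ξ j) = (∑ l, matOp H (M l) * diagOp m (u (e l))) ζ i := by
    intro i
    simp only [Matrix.map_apply, hx, map_sum, map_smul, _root_.sum_apply, _root_.smul_apply,
      WithLp.ofLp_sum, Finset.sum_apply]
    rw [Finset.sum_comm]
    rfl
  simp only [e1]
  rw [← hk_norm_sq]
  have e2 : ∑ j, ‖ξ j‖ ^ 2 = ‖ζ‖ ^ 2 := by rw [hk_norm_sq]
  rw [e2, ← mul_pow]
  gcongr
  exact (ContinuousLinearMap.le_opNorm _ _).trans (by gcongr)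

/-- linear functional with coefficients `z` on Euclidean space -/
noncomputable def fz (z : Fin n → ℂ) : EuclideanSpace ℂ (Fin n) →L[ℂ] ℂ :=
  ∑ l, z l • EuclideanSpace.proj l

lemma fz_apply (z : Fin n → ℂ) (v : EuclideanSpace ℂ (Fin n)) : fz z v = ∑ l, z l * v l := by
  simp [fz, _root_.sum_apply]

lemma fz_norm_le (z : Fin n → ℂ) : ‖fz z‖ ≤ Real.sqrt (∑ i, ‖z i‖ ^ 2) := by
  apply ContinuousLinearMap.opNorm_le_bound _ (Real.sqrt_nonneg _)
  intro v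
  rw [fz_apply, EuclideanSpace.norm_eq]
  calc ‖∑ l, z l * v l‖ ≤ ∑ l, ‖z l‖ * ‖v l‖ := by
        refine (norm_sum_le _ _).trans (Finset.sum_le_sum fun l _ => ?_)
        rw [norm_mul]
    _ ≤ _ := Real.sum_mul_le_sqrt_mul_sqrt _ _ _

theorem ub_l2 (n : ℕ) : UB (EuclideanSpace ℂ (Fin n)) (((n : ℝ) + 1) / 2) := by
  intro m x hx H _ _ _ u hu
  set M : Fin n → Matrix (Fin m) (Fin m) ℂ := fun l => Matrix.of fun i j => x i j l with hM
  set e : Fin n → EuclideanSpace ℂ (Fin n) := fun l => EuclideanSpace.single l 1 with he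
  have hxe : ∀ i j, x i j = ∑ l, M l i j • e l := by
    intro i j
    ext k
    simp [hM, he, Pi.single_apply]
  apply opNorm_le_tensor x u M e hxe
  apply core_l2
  · intro i j; exact mat_diag_comm _ _
  · intro i j; rw [diagOp_star]; exact mat_diag_comm _ _
  · intro z
    rw [← matOp_sum]
    refine (matOp_norm_le _).trans ?_
    have e1 : x.map (fz z) = ∑ i, z i • M i := by
      ext i j
      rw [Matrix.map_apply, fz_apply, Matrix.sum_apply]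
      rfl
    rw [← e1]
    set s := Real.sqrt (∑ i, ‖z i‖ ^ 2) with hs
    rcases (Real.sqrt_nonneg (∑ i, ‖z i‖ ^ 2)).eq_or_lt with h0 | h0
    · have hz : ‖fz z‖ ≤ 0 := by rw [h0]; exact fz_norm_le z
      have hz' : fz z = 0 := by simpa using hz
      rw [hz']
      have : x.map (⇑(0 : EuclideanSpace ℂ (Fin n) →L[ℂ] ℂ)) = 0 := by
        ext i j; simp
      rw [this, norm_zero]
      exact Real.sqrt_nonneg _
    · have h1 := map_le_of_minNorm hx (((s⁻¹ : ℝ) : ℂ) • fz z) (by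
        rw [norm_smul, Complex.norm_real, Real.norm_of_nonneg (inv_nonneg.2 h0.le)]
        calc s⁻¹ * ‖fz z‖ ≤ s⁻¹ * s := by gcongr; exact fz_norm_le z
          _ = 1 := inv_mul_cancel₀ h0.ne')
      have h2 : x.map (⇑(((s⁻¹ : ℝ) : ℂ) • fz z)) = ((s⁻¹ : ℝ) : ℂ) • x.map (fz z) := by
        ext i j; simp
      rw [h2, norm_smul, Complex.norm_real, Real.norm_of_nonneg (inv_nonneg.2 h0.le)] at h1
      have h3 : s * (s⁻¹ * ‖x.map (fz z)‖) ≤ s * 1 := by gcongr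
      rw [← mul_assoc, mul_inv_cancel₀ h0.ne', one_mul, mul_one] at h3
      exact h3
  · intro z
    rw [← diagOp_sum]
    refine (diagOp_norm_le _).trans ?_
    have e1 : ∑ i, z i • u (e i) = u (WithLp.toLp 2 z) := by
      have : (WithLp.toLp 2 z : EuclideanSpace ℂ (Fin n)) = ∑ i, z i • e i := by
        ext k; simp [he, Pi.single_apply]
      rw [this, map_sum]
      simp
    rw [e1]
    calc ‖u (WithLp.toLp 2 z)‖ ≤ ‖u‖ * ‖(WithLp.toLp 2 z : EuclideanSpace ℂ (Fin n))‖ := u.le_opNorm _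
      _ ≤ 1 * ‖(WithLp.toLp 2 z : EuclideanSpace ℂ (Fin n))‖ := by gcongr
      _ = Real.sqrt (∑ i, ‖z i‖ ^ 2) := by rw [one_mul, EuclideanSpace.norm_eq]

theorem ub_linf (n : ℕ) : UB (Fin n → ℂ) ((Real.sqrt (2 * n) + 1) / 2) := by
  intro m x hx H _ _ _ u hu
  set M : Fin n → Matrix (Fin m) (Fin m) ℂ := fun l => Matrix.of fun i j => x i j l with hM
  set e : Fin n → (Fin n → ℂ) := fun l => Pi.single l 1 with he
  have hxe : ∀ i j, x i j = ∑ l, M l i j • e l := by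
    intro i j
    ext k
    simp [hM, he, Pi.single_apply]
  apply opNorm_le_tensor x u M e hxe
  have hcomm : ∑ l, matOp H (M l) * diagOp m (u (e l)) = ∑ l, diagOp m (u (e l)) * matOp H (M l) :=
    Finset.sum_congr rfl fun l _ => mat_diag_comm _ _
  rw [hcomm]
  apply core_linf
  · intro i j; exact (mat_diag_comm _ _).symm
  · intro i j; rw [matOp_star]; exact (mat_diag_comm _ _).symm
  · intro z hz
    rw [← diagOp_sum]
    refine (diagOp_norm_le _).trans ?_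
    have e1 : ∑ i, z i • u (e i) = u z := by
      have : z = ∑ i, z i • e i := by
        ext k; simp [he, Pi.single_apply]
      conv_rhs => rw [this, map_sum]
      simp
    rw [e1]
    have hz1 : ‖z‖ ≤ 1 := (pi_norm_le_iff_of_nonneg zero_le_one).2 hz
    calc ‖u z‖ ≤ ‖u‖ * ‖z‖ := u.le_opNorm _
      _ ≤ 1 * 1 := by gcongr
      _ = 1 := one_mul _
  · intro l
    refine (matOp_norm_le _).trans ?_
    have h1 := map_le_of_minNorm hx (ContinuousLinearMap.proj l) (by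
      apply ContinuousLinearMap.opNorm_le_bound _ zero_le_one
      intro v
      rw [one_mul]
      exact norm_le_pi_norm v l)
    exact h1

end

end Pool.Agent.Helper547.Alpha
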