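import Mathlib
import Pool.Agent.Helper547.Alpha.Upper
import Pool.Agent.Helper547.Alpha.Clifford

set_option autoImplicit false

open Finset ComplexConjugate Filter Topology
open scoped Matrix.Norms.L2Operator ComplexOrder
open Matrix

namespace Pool.Agent.Helper547.Alpha

section
variable {n N : ℕ} {γ : Fin n → Matrix (Fin N) (Fin N) ℂ}

lemma opNorm_set_nonempty {H : Type} [NormedAddCommGroup H] [InnerProductSpace ℂ H] {m : ℕ}
    (T : Matrix (Fin m) (Fin m) (H →L[ℂ] H)) :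
    {C : ℝ | 0 ≤ C ∧ ∀ ξ : Fin m → H, ∑ i, ‖∑ j, T i j (ξ j)‖ ^ 2 ≤ C ^ 2 * ∑ j, ‖ξ j‖ ^ 2}.Nonempty := by
  refine ⟨Real.sqrt (∑ i, ∑ j, ‖T i j‖ ^ 2), Real.sqrt_nonneg _, ?_⟩
  intro ξ
  rw [Real.sq_sqrt (Finset.sum_nonneg fun i _ => Finset.sum_nonneg fun j _ => by positivity),
    Finset.sum_mul]
  refine Finset.sum_le_sum fun i _ => ?_
  have h1 : ‖∑ j, T i j (ξ j)‖ ≤ ∑ j, ‖T i j‖ * ‖ξ j‖ :=
    (norm_sum_le _ _).trans (Finset.sum_le_sum fun j _ => (T i j).le_opNorm _)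
  calc ‖∑ j, T i j (ξ j)‖ ^ 2 ≤ (∑ j, ‖T i j‖ * ‖ξ j‖) ^ 2 := by gcongr
    _ ≤ (∑ j, ‖T i j‖ ^ 2) * ∑ j, ‖ξ j‖ ^ 2 := Finset.sum_mul_sq_le_sq_mul_sq _ _ _

/-- matrices acting on Euclidean space -/
noncomputable def op (A : Matrix (Fin N) (Fin N) ℂ) :
    EuclideanSpace ℂ (Fin N) →L[ℂ] EuclideanSpace ℂ (Fin N) :=
  Matrix.toEuclideanCLM (n := Fin N) (𝕜 := ℂ) A

lemma op_apply (A : Matrix (Fin N) (Fin N) ℂ) (v : EuclideanSpace ℂ (Fin N)) (k : Fin N) :
    op A v k = ∑ j, A k j * v j := rfl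

lemma op_norm (A : Matrix (Fin N) (Fin N) ℂ) : ‖op A‖ = ‖A‖ := rfl

lemma cliff_lower (hN : 0 < N) (h : Cliff γ) {c : ℝ} (hc : 0 ≤ c)
    (T : Matrix (Fin N) (Fin N) (EuclideanSpace ℂ (Fin N) →L[ℂ] EuclideanSpace ℂ (Fin N)))
    (hT : ∀ i j, T i j = (c : ℂ) • ∑ l, γ l i j • op (γ l)) :
    c * n ≤ opNorm (EuclideanSpace ℂ (Fin N)) N T := by
  apply le_csInf (opNorm_set_nonempty T)
  rintro C ⟨hC, hC2⟩
  have h1 := hC2 (fun j => EuclideanSpace.single j (1 : ℂ))
  have e1 : ∀ i, ∑ j, T i j (EuclideanSpace.single j (1 : ℂ)) =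
      ((c * n : ℝ) : ℂ) • EuclideanSpace.single i (1 : ℂ) := by
    intro i
    have e2 : ∀ l : Fin n, ∑ j, γ l i j • op (γ l) (EuclideanSpace.single j (1 : ℂ)) =
        EuclideanSpace.single i (1 : ℂ) := by
      intro l
      ext k
      simp only [WithLp.ofLp_sum, Finset.sum_apply, PiLp.smul_apply, op_apply, smul_eq_mul]
      have e3 : ∀ j, γ l i j * ∑ j', γ l k j' * (EuclideanSpace.single j (1 : ℂ) : EuclideanSpace ℂ (Fin N)) j' =
          γ l k j * γ l j i := by
        intro j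
        rw [Finset.sum_eq_single j]
        · rw [PiLp.single_apply, if_pos rfl, mul_one]
          have : γ l i j = γ l j i := by
            have := congrFun (congrFun (h.symm l) j) i
            rwa [transpose_apply] at this
          rw [this]; ring
        · intro j' _ hj'
          rw [PiLp.single_apply, if_neg hj', mul_zero]
        · simp
      simp only [e3]
      rw [← Matrix.mul_apply, h.sq, Matrix.one_apply, PiLp.single_apply]
    simp only [hT, _root_.smul_apply, _root_.sum_apply]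
    rw [← Finset.smul_sum, Finset.sum_comm]
    simp only [e2]
    rw [Finset.sum_const, Finset.card_univ, Fintype.card_fin, ← Nat.cast_smul_eq_nsmul ℂ, smul_smul]
    push_cast
    rfl
  simp only [e1, norm_smul, Complex.norm_real, Real.norm_of_nonneg (mul_nonneg hc (Nat.cast_nonneg n)),
    PiLp.norm_single, norm_one, mul_one] at h1
  rw [Finset.sum_const, Finset.sum_const, Finset.card_univ, Fintype.card_fin, nsmul_eq_mul, nsmul_eq_mul,
    one_pow, mul_one, mul_comm] at h1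
  have hN' : (0 : ℝ) < N := by exact_mod_cast hN
  have h2 := le_of_mul_le_mul_right h1 hN'
  exact le_of_sq_le_sq h2 hC

/-- the Clifford map on Euclidean space -/
noncomputable def u2 (γ : Fin n → Matrix (Fin N) (Fin N) ℂ) : EuclideanSpace ℂ (Fin n) →L[ℂ]
    (EuclideanSpace ℂ (Fin N) →L[ℂ] EuclideanSpace ℂ (Fin N)) :=
  (((Real.sqrt 2)⁻¹ : ℝ) : ℂ) •
    ∑ l, ContinuousLinearMap.smulRight (EuclideanSpace.proj l : EuclideanSpace ℂ (Fin n) →L[ℂ] ℂ) (op (γ l))

lemma u2_apply (v : EuclideanSpace ℂ (Fin n)) :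
    u2 γ v = (((Real.sqrt 2)⁻¹ : ℝ) : ℂ) • ∑ l, v l • op (γ l) := by
  rw [u2, _root_.smul_apply, _root_.sum_apply]
  rfl

lemma u2_norm (h : Cliff γ) : ‖u2 γ‖ ≤ 1 := by
  apply ContinuousLinearMap.opNorm_le_bound _ zero_le_one
  intro v
  have e : ∑ l, v l • op (γ l) = op (∑ l, v l • γ l) := by
    simp [op, map_sum]
  rw [u2_apply, e, norm_smul, op_norm, Complex.norm_real, Real.norm_of_nonneg (by positivity), one_mul]
  have h1 := cliff_sum_norm h (fun l => v l)
  rw [Real.sqrt_mul (by norm_num), ← EuclideanSpace.norm_eq] at h1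
  have h2 : 0 < Real.sqrt 2 := by positivity
  calc (Real.sqrt 2)⁻¹ * ‖∑ l, v l • γ l‖ ≤ (Real.sqrt 2)⁻¹ * (Real.sqrt 2 * ‖v‖) := by gcongr
    _ = ‖v‖ := by rw [← mul_assoc, inv_mul_cancel₀ h2.ne', one_mul]

theorem lower_l2 (n : ℕ) : (n : ℝ) / 2 ≤ alpha (EuclideanSpace ℂ (Fin n)) := by
  obtain ⟨N, γ, hN, h⟩ := exists_cliff_fin n
  set x : Matrix (Fin N) (Fin N) (EuclideanSpace ℂ (Fin n)) :=
    fun i j => WithLp.toLp 2 (fun l => (((Real.sqrt 2)⁻¹ : ℝ) : ℂ) * γ l i j) with hx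
  have hx1 : minNorm N x ≤ 1 := by
    apply minNorm_le
    intro f hf
    have e1 : x.map f = (((Real.sqrt 2)⁻¹ : ℝ) : ℂ) • ∑ l, f (EuclideanSpace.single l 1) • γ l := by
      ext i j
      rw [Matrix.map_apply, Matrix.smul_apply, Matrix.sum_apply]
      have e2 : x i j = ∑ l, ((((Real.sqrt 2)⁻¹ : ℝ) : ℂ) * γ l i j) • EuclideanSpace.single l (1 : ℂ) := by
        ext k
        simp [hx, Pi.single_apply]
      rw [e2, map_sum, Finset.smul_sum]
      refine Finset.sum_congr rfl fun l _ => ?_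
      rw [map_smul, Matrix.smul_apply]
      simp only [smul_eq_mul]
      ring
    rw [e1, norm_smul, Complex.norm_real, Real.norm_of_nonneg (by positivity)]
    have h1 := cliff_sum_norm h (fun l => f (EuclideanSpace.single l 1))
    rw [Real.sqrt_mul (by norm_num)] at h1
    have h2 : Real.sqrt (∑ l, ‖f (EuclideanSpace.single l 1)‖ ^ 2) ≤ 1 := by
      set s := ∑ l, ‖f (EuclideanSpace.single l 1)‖ ^ 2 with hs
      have hs0 : 0 ≤ s := Finset.sum_nonneg fun l _ => by positivity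
      set v : EuclideanSpace ℂ (Fin n) := WithLp.toLp 2 (fun l => conj (f (EuclideanSpace.single l 1))) with hv
      have e3 : f v = (s : ℂ) := by
        have e4 : v = ∑ l, conj (f (EuclideanSpace.single l 1)) • EuclideanSpace.single l (1 : ℂ) := by
          ext k
          simp [hv, Pi.single_apply]
        rw [e4, map_sum, hs, Complex.ofReal_sum]
        refine Finset.sum_congr rfl fun l _ => ?_
        rw [map_smul, smul_eq_mul, mul_comm, Complex.mul_conj, Complex.normSq_eq_norm_sq]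
      have e5 : ‖v‖ = Real.sqrt s := by
        rw [EuclideanSpace.norm_eq, hs]
        congr 1
        refine Finset.sum_congr rfl fun l _ => ?_
        simp [hv]
      have h3 : ‖f v‖ ≤ 1 * ‖v‖ := (f.le_opNorm v).trans (by gcongr)
      rw [e3, e5, Complex.norm_real, Real.norm_of_nonneg hs0, one_mul] at h3
      by_contra hcon
      push Not at hcon
      have h4 : Real.sqrt s * Real.sqrt s = s := Real.mul_self_sqrt hs0
      nlinarith
    have h3 : 0 < Real.sqrt 2 := by positivity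
    calc (Real.sqrt 2)⁻¹ * ‖∑ l, f (EuclideanSpace.single l 1) • γ l‖
        ≤ (Real.sqrt 2)⁻¹ * (Real.sqrt 2 * 1) := by
          gcongr
          exact h1.trans (by gcongr)
      _ = 1 := by rw [mul_one, inv_mul_cancel₀ h3.ne']
  have h2 := le_alpha (ub_l2 n) x hx1 (EuclideanSpace ℂ (Fin N)) (u2 γ) (u2_norm h)
  refine le_trans ?_ h2
  have h3 := cliff_lower hN h (c := 1 / 2) (by norm_num) (x.map (u2 γ)) (by
    intro i j
    rw [Matrix.map_apply, u2_apply]
    simp only [hx, mul_smul, ← Finset.smul_sum]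
    rw [smul_smul]
    congr 1
    rw [← Complex.ofReal_mul, ← mul_inv, Real.mul_self_sqrt (by norm_num)]
    norm_num)
  linarith

/-- the Clifford map on the sup-norm space -/
noncomputable def uinf (γ : Fin n → Matrix (Fin N) (Fin N) ℂ) : (Fin n → ℂ) →L[ℂ]
    (EuclideanSpace ℂ (Fin N) →L[ℂ] EuclideanSpace ℂ (Fin N)) :=
  (((Real.sqrt (2 * n))⁻¹ : ℝ) : ℂ) •
    ∑ l, ContinuousLinearMap.smulRight (ContinuousLinearMap.proj l : (Fin n → ℂ) →L[ℂ] ℂ) (op (γ l))

lemma uinf_apply (v : Fin n → ℂ) :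
    uinf γ v = (((Real.sqrt (2 * n))⁻¹ : ℝ) : ℂ) • ∑ l, v l • op (γ l) := by
  rw [uinf, _root_.smul_apply, _root_.sum_apply]
  rfl

lemma uinf_norm (h : Cliff γ) : ‖uinf γ‖ ≤ 1 := by
  apply ContinuousLinearMap.opNorm_le_bound _ zero_le_one
  intro v
  have e : ∑ l, v l • op (γ l) = op (∑ l, v l • γ l) := by
    simp [op, map_sum]
  rw [uinf_apply, e, norm_smul, op_norm, Complex.norm_real, Real.norm_of_nonneg (by positivity), one_mul]
  have h1 := cliff_sum_norm h (fun l => v l)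
  have h3 : ∑ l, ‖v l‖ ^ 2 ≤ n * ‖v‖ ^ 2 := by
    calc ∑ l, ‖v l‖ ^ 2 ≤ ∑ _l : Fin n, ‖v‖ ^ 2 :=
          Finset.sum_le_sum fun l _ => by
            have := norm_le_pi_norm v l
            gcongr
      _ = n * ‖v‖ ^ 2 := by simp
  have h4 : Real.sqrt (2 * ∑ l, ‖v l‖ ^ 2) ≤ Real.sqrt (2 * n) * ‖v‖ := by
    have h5 : Real.sqrt (2 * n) * ‖v‖ = Real.sqrt (2 * n * ‖v‖ ^ 2) := by
      rw [Real.sqrt_mul (x := 2 * n) (by positivity), Real.sqrt_sq (norm_nonneg v)]
    rw [h5]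
    apply Real.sqrt_le_sqrt
    linarith
  rcases Nat.eq_zero_or_pos n with hn | hn
  · subst hn
    simp
  have h2 : 0 < Real.sqrt (2 * n) := by positivity
  calc (Real.sqrt (2 * n))⁻¹ * ‖∑ l, v l • γ l‖ ≤ (Real.sqrt (2 * n))⁻¹ * (Real.sqrt (2 * n) * ‖v‖) := by
        gcongr
        exact h1.trans h4
    _ = ‖v‖ := by rw [← mul_assoc, inv_mul_cancel₀ h2.ne', one_mul]

theorem lower_linf (n : ℕ) : Real.sqrt (n / 2) ≤ alpha (Fin n → ℂ) := by
  obtain ⟨N, γ, hN, h⟩ := exists_cliff_fin n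
  set x : Matrix (Fin N) (Fin N) (Fin n → ℂ) := fun i j l => γ l i j with hx
  have hx1 : minNorm N x ≤ 1 := by
    apply minNorm_le
    intro f hf
    have e1 : x.map f = ∑ l, f (Pi.single l 1) • γ l := by
      ext i j
      rw [Matrix.map_apply, Matrix.sum_apply]
      have e2 : x i j = ∑ l, (γ l i j) • (Pi.single l (1 : ℂ) : Fin n → ℂ) := by
        ext k
        simp [hx, Pi.single_apply]
      rw [e2, map_sum]
      refine Finset.sum_congr rfl fun l _ => ?_
      rw [map_smul, Matrix.smul_apply]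
      simp only [smul_eq_mul]
      ring
    rw [e1]
    have h1 : ∑ l, ‖f (Pi.single l 1)‖ ≤ 1 := by
      -- choose unimodular coefficients
      have hc : ∀ z : ℂ, ∃ c : ℂ, ‖c‖ ≤ 1 ∧ c * z = (‖z‖ : ℂ) := by
        intro z
        by_cases hz : z = 0
        · exact ⟨0, by simp, by simp [hz]⟩
        · refine ⟨conj z / ‖z‖, ?_, ?_⟩
          · rw [norm_div, RCLike.norm_conj, Complex.norm_real, norm_norm]
            rw [div_self (norm_ne_zero_iff.mpr hz)]
          · rw [div_mul_eq_mul_div, mul_comm, Complex.mul_conj, Complex.normSq_eq_norm_sq]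
            have : (‖z‖ : ℂ) ≠ 0 := by exact_mod_cast norm_ne_zero_iff.mpr hz
            push_cast
            field_simp
      choose c hc1 hc2 using hc
      set v : Fin n → ℂ := fun l => c (f (Pi.single l 1)) with hv
      have e3 : f v = ((∑ l, ‖f (Pi.single l 1)‖ : ℝ) : ℂ) := by
        have e4 : v = ∑ l, c (f (Pi.single l 1)) • (Pi.single l (1 : ℂ) : Fin n → ℂ) := by
          ext k
          simp [hv, Pi.single_apply]
        rw [e4, map_sum, Complex.ofReal_sum]
        refine Finset.sum_congr rfl fun l _ => ?_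
        rw [map_smul, smul_eq_mul, hc2]
      have e5 : ‖v‖ ≤ 1 := (pi_norm_le_iff_of_nonneg zero_le_one).mpr fun l => hc1 _
      have h3 : ‖f v‖ ≤ 1 * 1 := (f.le_opNorm v).trans (by gcongr)
      rw [e3, Complex.norm_real, Real.norm_of_nonneg (Finset.sum_nonneg fun _ _ => norm_nonneg _)] at h3
      linarith
    calc ‖∑ l, f (Pi.single l 1) • γ l‖ ≤ ∑ l, ‖f (Pi.single l 1)‖ * 1 := by
          refine (norm_sum_le _ _).trans (Finset.sum_le_sum fun l _ => ?_)
          rw [norm_smul]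
          have := cliff_norm_le h l
          gcongr
      _ ≤ 1 := by simpa using h1
  have h2 := le_alpha (ub_linf n) x hx1 (EuclideanSpace ℂ (Fin N)) (uinf γ) (uinf_norm h)
  refine le_trans ?_ h2
  have h3 := cliff_lower hN h (c := (Real.sqrt (2 * n))⁻¹) (by positivity) (x.map (uinf γ)) (by
    intro i j
    rw [Matrix.map_apply, uinf_apply])
  refine le_trans (le_of_eq ?_) h3
  rcases Nat.eq_zero_or_pos n with hn | hn
  · subst hn
    simp
  have hn' : (0 : ℝ) < n := by exact_mod_cast hn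
  have h4 : Real.sqrt (n / 2) * Real.sqrt (2 * n) = n := by
    rw [← Real.sqrt_mul (by positivity)]
    rw [show (n : ℝ) / 2 * (2 * n) = n ^ 2 by ring]
    exact Real.sqrt_sq hn'.le
  have h5 : 0 < Real.sqrt (2 * n) := by positivity
  rw [← h4]
  rw [h4, inv_mul_eq_div, eq_div_iff h5.ne', h4]

end

end Pool.Agent.Helper547.Alpha
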