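import Mathlib
import Pool.Agent.Helper547.Alpha.Lower

set_option autoImplicit false

open Finset ComplexConjugate Filter Topology
open scoped Matrix.Norms.L2Operator ComplexOrder
open Matrix

namespace Pool.Agent.Helper547.Alpha

/-- real matrices satisfying the mixed anticommutation relations, together with the projections on
the particle number spaces -/
structure Fock {ι : Type} [Fintype ι] [DecidableEq ι] {n : ℕ} (C : Fin n → Matrix ι ι ℂ)
    (P : ℕ → Matrix ι ι ℂ) : Prop where
  real : ∀ i, (C i)ᴴ = (C i)ᵀ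
  car : ∀ i j, (C i)ᴴ * C j + C j * (C i)ᴴ = if i = j then 1 else 0
  level : ∀ j : ℕ, ∑ i, C i * P j * (C i)ᵀ = ((j : ℂ) + 1) • P (j + 1)
  trace : ∀ j : ℕ, ∑ a, ∑ b, ‖P j a b‖ ^ 2 = (n.choose j : ℝ)

/-- one more mode -/
def newC {ι : Type} [DecidableEq ι] {n : ℕ} (C : Fin n → Matrix ι ι ℂ) :
    Fin (n + 1) → Matrix (ι ⊕ ι) (ι ⊕ ι) ℂ :=
  Fin.snoc (fun i => fromBlocks (C i) 0 0 (-C i)) (fromBlocks 0 0 1 0)

/-- one more mode, the projections -/
def newP {ι : Type} (P : ℕ → Matrix ι ι ℂ) : ℕ → Matrix (ι ⊕ ι) (ι ⊕ ι) ℂ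
  | 0 => fromBlocks (P 0) 0 0 0
  | j + 1 => fromBlocks (P (j + 1)) 0 0 (P j)

lemma exists_fock (n : ℕ) : ∃ (ι : Type) (_ : Fintype ι) (_ : DecidableEq ι)
    (C : Fin n → Matrix ι ι ℂ) (P : ℕ → Matrix ι ι ℂ), Fock C P := by
  induction n with
  | zero =>
    refine ⟨Unit, inferInstance, inferInstance, fun i => i.elim0, fun j => if j = 0 then 1 else 0, ?_⟩
    constructor
    · exact fun i => i.elim0
    · exact fun i => i.elim0
    · intro j
      simp
    · intro j
      rcases j with _ | j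
      · simp
      · simp
  | succ n ih =>
    obtain ⟨ι, h1, h2, C, P, h⟩ := ih
    refine ⟨ι ⊕ ι, inferInstance, inferInstance, newC C, newP P, ?_⟩
    constructor
    · intro i
      refine Fin.lastCases ?_ (fun i => ?_) i
      · simp [newC, fromBlocks_conjTranspose, fromBlocks_transpose]
      · simp [newC, fromBlocks_conjTranspose, fromBlocks_transpose, h.real]
    · intro i j
      refine Fin.lastCases ?_ (fun i => ?_) i
      · refine Fin.lastCases ?_ (fun j => ?_) j
        · simp [newC, fromBlocks_conjTranspose, fromBlocks_multiply, fromBlocks_add]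
        · have hne : ¬ (Fin.last n = j.castSucc) := fun e => (Fin.castSucc_lt_last j).ne e.symm
          simp [newC, fromBlocks_conjTranspose, fromBlocks_multiply, fromBlocks_add, hne]
      · refine Fin.lastCases ?_ (fun j => ?_) j
        · have hne : ¬ (i.castSucc = Fin.last n) := (Fin.castSucc_lt_last i).ne
          simp [newC, fromBlocks_conjTranspose, fromBlocks_multiply, fromBlocks_add, hne]
        · have := h.car i j
          simp only [newC, Fin.snoc_castSucc, fromBlocks_conjTranspose, fromBlocks_multiply,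
            fromBlocks_add, conjTranspose_neg, Matrix.neg_mul, Matrix.mul_neg, neg_neg]
          by_cases hij : i = j
          · subst hij
            rw [if_pos rfl] at this
            simp [this]
          · have h4 : ¬ (i.castSucc = j.castSucc) := fun e => hij (Fin.castSucc_injective _ e)
            rw [if_neg hij] at this
            simp [this, h4]
    · intro j
      rw [Fin.sum_univ_castSucc]
      have hsum : ∀ Q : Matrix ι ι ℂ, ∀ R : Matrix ι ι ℂ,
          ∑ i : Fin n, newC C i.castSucc * fromBlocks Q 0 0 R * (newC C i.castSucc)ᵀ =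
          fromBlocks (∑ i, C i * Q * (C i)ᵀ) 0 0 (∑ i, C i * R * (C i)ᵀ) := by
        intro Q R
        have : ∀ i : Fin n, newC C i.castSucc * fromBlocks Q 0 0 R * (newC C i.castSucc)ᵀ =
            fromBlocks (C i * Q * (C i)ᵀ) 0 0 (C i * R * (C i)ᵀ) := by
          intro i
          simp [newC, fromBlocks_transpose, fromBlocks_multiply]
        simp only [this]
        ext a b
        rw [Matrix.sum_apply]
        rcases a with a | a <;> rcases b with b | b <;> simp [Matrix.sum_apply]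
      rcases j with _ | j
      · simp only [newP, hsum]
        have h0 := h.level 0
        rw [h0]
        simp [newC, fromBlocks_transpose, fromBlocks_multiply, fromBlocks_add]
      · simp only [newP, hsum]
        have h0 := h.level j
        have h1 := h.level (j + 1)
        rw [h0, h1]
        simp only [newC, Fin.snoc_last, fromBlocks_transpose, fromBlocks_multiply, fromBlocks_add]
        ext a b
        rcases a with a | a <;> rcases b with b | b <;> simp [Matrix.smul_apply]
        ring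
    · intro j
      rcases j with _ | j
      · have h0 := h.trace 0
        simp only [newP, Fintype.sum_sum_type, fromBlocks_apply₁₁, fromBlocks_apply₁₂,
          fromBlocks_apply₂₁, fromBlocks_apply₂₂, Matrix.zero_apply]
        simp [h0] at *
      · have h0 := h.trace j
        have h1 := h.trace (j + 1)
        simp only [newP, Fintype.sum_sum_type, fromBlocks_apply₁₁, fromBlocks_apply₁₂,
          fromBlocks_apply₂₁, fromBlocks_apply₂₂, Matrix.zero_apply]
        rw [Nat.choose_succ_succ]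
        push_cast
        rw [← h0, ← h1]
        simp
        ring

lemma exists_fock_fin (n : ℕ) : ∃ (N : ℕ) (C : Fin n → Matrix (Fin N) (Fin N) ℂ)
    (P : ℕ → Matrix (Fin N) (Fin N) ℂ), Fock C P := by
  obtain ⟨ι, h1, h2, C, P, h⟩ := exists_fock n
  set e := Fintype.equivFin ι
  refine ⟨Fintype.card ι, fun i => (C i).submatrix e.symm e.symm, fun j => (P j).submatrix e.symm e.symm, ?_⟩
  constructor
  · intro i
    rw [conjTranspose_submatrix, h.real, transpose_submatrix]
  · intro i j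
    rw [conjTranspose_submatrix, submatrix_mul_equiv, submatrix_mul_equiv]
    change ((C i)ᴴ * C j + C j * (C i)ᴴ).submatrix e.symm e.symm = _
    rw [h.car i j]
    by_cases hij : i = j
    · simp [hij]
    · simp [hij]
  · intro j
    simp only [transpose_submatrix, submatrix_mul_equiv]
    have := h.level j
    have e2 : ∑ i, (C i * P j * (C i)ᵀ).submatrix e.symm e.symm =
        (∑ i, C i * P j * (C i)ᵀ).submatrix e.symm e.symm := by
      ext a b
      simp [Matrix.sum_apply]
    rw [e2, this]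
    rfl
  · intro j
    rw [← h.trace j]
    simp only [submatrix_apply]
    rw [← Equiv.sum_comp e.symm]
    refine Finset.sum_congr rfl fun a _ => ?_
    rw [← Equiv.sum_comp e.symm]

lemma opNorm_ge {H : Type} [NormedAddCommGroup H] [InnerProductSpace ℂ H] {m : ℕ}
    (T : Matrix (Fin m) (Fin m) (H →L[ℂ] H)) (ξ : Fin m → H) {K : ℝ}
    (hpos : 0 < ∑ j, ‖ξ j‖ ^ 2) (h : K * ∑ j, ‖ξ j‖ ^ 2 ≤ ∑ i, ‖∑ j, T i j (ξ j)‖ ^ 2) :
    Real.sqrt K ≤ opNorm H m T := by
  apply le_csInf (opNorm_set_nonempty T)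
  rintro C ⟨hC, hC2⟩
  have h1 := h.trans (hC2 ξ)
  have h2 := le_of_mul_le_mul_right h1 hpos
  exact Real.sqrt_le_iff.mpr ⟨hC, h2⟩

section
variable {n N : ℕ} {C : Fin n → Matrix (Fin N) (Fin N) ℂ} {P : ℕ → Matrix (Fin N) (Fin N) ℂ}

lemma fock_sum_norm (h : Fock C P) (z : Fin n → ℂ) :
    ‖∑ i, z i • C i‖ ≤ Real.sqrt (∑ i, ‖z i‖ ^ 2) := by
  set A := ∑ i, z i • C i with hA
  have hAA : Aᴴ * A + A * Aᴴ = ((∑ i, ‖z i‖ ^ 2 : ℝ) : ℂ) • (1 : Matrix (Fin N) (Fin N) ℂ) := by
    have e1 : Aᴴ = ∑ i, conj (z i) • (C i)ᴴ := by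
      rw [hA, conjTranspose_sum]
      refine Finset.sum_congr rfl fun i _ => ?_
      rw [conjTranspose_smul]; rfl
    rw [e1, hA]
    have p1 : (∑ i, conj (z i) • (C i)ᴴ) * (∑ j, z j • C j) =
        ∑ i, ∑ j, (conj (z i) * z j) • ((C i)ᴴ * C j) := by
      rw [Finset.sum_mul_sum]
      refine Finset.sum_congr rfl fun i _ => Finset.sum_congr rfl fun j _ => ?_
      rw [smul_mul_smul_comm]
    have p2 : (∑ j, z j • C j) * (∑ i, conj (z i) • (C i)ᴴ) =
        ∑ i, ∑ j, (conj (z i) * z j) • (C j * (C i)ᴴ) := by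
      rw [Finset.sum_mul_sum, Finset.sum_comm]
      refine Finset.sum_congr rfl fun i _ => Finset.sum_congr rfl fun j _ => ?_
      rw [smul_mul_smul_comm, mul_comm (z j)]
    rw [p1, p2, ← Finset.sum_add_distrib]
    push_cast
    rw [Finset.sum_smul]
    refine Finset.sum_congr rfl fun i _ => ?_
    rw [← Finset.sum_add_distrib, Finset.sum_eq_single i]
    · rw [← smul_add, h.car, if_pos rfl, mul_comm (conj (z i)), Complex.mul_conj,
        Complex.normSq_eq_norm_sq]
      push_cast; rfl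
    · intro j _ hj
      rw [← smul_add, h.car, if_neg (Ne.symm hj), smul_zero]
    · simp
  rw [l2_le_iff _ (Real.sqrt_nonneg _)]
  intro x
  rw [Real.sq_sqrt (by positivity)]
  have h1 := sum_norm_sq_mulVec A x
  have h2 := sum_norm_sq_mulVec Aᴴ x
  rw [conjTranspose_conjTranspose] at h2
  have h3 : star x ⬝ᵥ x = ((∑ j, ‖x j‖ ^ 2 : ℝ) : ℂ) := by
    simp only [dotProduct, Pi.star_apply]
    push_cast
    refine Finset.sum_congr rfl fun i _ => ?_
    rw [RCLike.star_def, mul_comm, Complex.mul_conj, Complex.normSq_eq_norm_sq]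
    push_cast; rfl
  have h4 : ((∑ i, ‖(A *ᵥ x) i‖ ^ 2 + ∑ i, ‖(Aᴴ *ᵥ x) i‖ ^ 2 : ℝ) : ℂ) =
      (((∑ i, ‖z i‖ ^ 2) * (∑ j, ‖x j‖ ^ 2) : ℝ) : ℂ) := by
    rw [Complex.ofReal_add, h1, h2, ← dotProduct_add, ← add_mulVec, hAA, smul_mulVec,
      one_mulVec, dotProduct_smul, h3, smul_eq_mul]
    push_cast
    ring
  have h5 : ∑ i, ‖(A *ᵥ x) i‖ ^ 2 + ∑ i, ‖(Aᴴ *ᵥ x) i‖ ^ 2 =
      (∑ i, ‖z i‖ ^ 2) * (∑ j, ‖x j‖ ^ 2) := by exact_mod_cast h4
  have h6 : 0 ≤ ∑ i, ‖(Aᴴ *ᵥ x) i‖ ^ 2 := Finset.sum_nonneg fun i _ => by positivity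
  linarith

/-- the Fock map on Euclidean space -/
noncomputable def uF (C : Fin n → Matrix (Fin N) (Fin N) ℂ) : EuclideanSpace ℂ (Fin n) →L[ℂ]
    (EuclideanSpace ℂ (Fin N) →L[ℂ] EuclideanSpace ℂ (Fin N)) :=
  ∑ l, ContinuousLinearMap.smulRight (EuclideanSpace.proj l : EuclideanSpace ℂ (Fin n) →L[ℂ] ℂ) (op (C l))

lemma uF_apply (v : EuclideanSpace ℂ (Fin n)) : uF C v = ∑ l, v l • op (C l) := by
  rw [uF, _root_.sum_apply]
  rfl

lemma uF_norm (h : Fock C P) : ‖uF C‖ ≤ 1 := by
  apply ContinuousLinearMap.opNorm_le_bound _ zero_le_one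
  intro v
  have e : ∑ l, v l • op (C l) = op (∑ l, v l • C l) := by
    simp [op, map_sum]
  rw [uF_apply, e, op_norm, one_mul]
  have h1 := fock_sum_norm h (fun l => v l)
  rwa [← EuclideanSpace.norm_eq] at h1

/-- functionals of norm at most one on Euclidean space -/
lemma functional_l2 {n : ℕ} (f : EuclideanSpace ℂ (Fin n) →L[ℂ] ℂ) (hf : ‖f‖ ≤ 1) :
    Real.sqrt (∑ l, ‖f (EuclideanSpace.single l 1)‖ ^ 2) ≤ 1 := by
  set s := ∑ l, ‖f (EuclideanSpace.single l 1)‖ ^ 2 with hs
  have hs0 : 0 ≤ s := Finset.sum_nonneg fun l _ => by positivity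
  set v : EuclideanSpace ℂ (Fin n) := WithLp.toLp 2 (fun l => conj (f (EuclideanSpace.single l 1))) with hv
  have e3 : f v = (s : ℂ) := by
    have e4 : v = ∑ l, conj (f (EuclideanSpace.single l 1)) • EuclideanSpace.single l (1 : ℂ) := by
      ext k
      simp [hv, Pi.single_apply]
    rw [e4, map_sum, hs, Complex.ofReal_sum]
    refine Finset.sum_congr rfl fun l _ => ?_
    rw [map_smul, smul_eq_mul, mul_comm, Complex.mul_conj, Complex.normSq_eq_norm_sq]
  have e5 : ‖v‖ = Real.sqrt s := by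
    rw [EuclideanSpace.norm_eq, hs]
    congr 1
    refine Finset.sum_congr rfl fun l _ => ?_
    simp [hv]
  have h3 : ‖f v‖ ≤ 1 * ‖v‖ := (f.le_opNorm v).trans (by gcongr)
  rw [e3, e5, Complex.norm_real, Real.norm_of_nonneg hs0, one_mul] at h3
  by_contra hcon
  push Not at hcon
  have h4 : Real.sqrt s * Real.sqrt s = s := Real.mul_self_sqrt hs0
  nlinarith

end

theorem lower_fock (n j : ℕ) (hj : j < n) :
    Real.sqrt (((j : ℝ) + 1) * ((n : ℝ) - j)) ≤ alpha (EuclideanSpace ℂ (Fin n)) := by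
  obtain ⟨N, C, P, h⟩ := exists_fock_fin n
  set x : Matrix (Fin N) (Fin N) (EuclideanSpace ℂ (Fin n)) :=
    fun i j => WithLp.toLp 2 (fun l => C l i j) with hx
  have hx1 : minNorm N x ≤ 1 := by
    apply minNorm_le
    intro f hf
    have e1 : x.map f = ∑ l, f (EuclideanSpace.single l 1) • C l := by
      ext i j
      rw [Matrix.map_apply, Matrix.sum_apply]
      have e2 : x i j = ∑ l, (C l i j) • EuclideanSpace.single l (1 : ℂ) := by
        ext k
        simp [hx, Pi.single_apply]
      rw [e2, map_sum]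
      refine Finset.sum_congr rfl fun l _ => ?_
      rw [map_smul, Matrix.smul_apply]
      simp only [smul_eq_mul]
      ring
    rw [e1]
    exact (fock_sum_norm h (fun l => f (EuclideanSpace.single l 1))).trans (functional_l2 f hf)
  have h2 := le_alpha (ub_l2 n) x hx1 (EuclideanSpace ℂ (Fin N)) (uF C) (uF_norm h)
  refine le_trans ?_ h2
  -- the test vector
  set ξ : Fin N → EuclideanSpace ℂ (Fin N) := fun a => WithLp.toLp 2 (fun b => P j a b) with hξ
  have hn1 : ∑ a, ‖ξ a‖ ^ 2 = (n.choose j : ℝ) := by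
    rw [← h.trace j]
    refine Finset.sum_congr rfl fun a _ => ?_
    rw [EuclideanSpace.norm_sq_eq]
  have hT : ∀ a, ∑ b, (x.map (uF C)) a b (ξ b) =
      (((j : ℂ) + 1)) • WithLp.toLp 2 (fun c => P (j + 1) a c) := by
    intro a
    have e0 := h.level j
    ext c
    have e1 := congrFun (congrFun e0 a) c
    rw [Matrix.sum_apply, Matrix.smul_apply, smul_eq_mul] at e1
    rw [PiLp.smul_apply, smul_eq_mul, ← e1]
    simp only [WithLp.ofLp_sum, Finset.sum_apply]
    simp only [Matrix.map_apply, uF_apply, _root_.sum_apply, _root_.smul_apply, WithLp.ofLp_sum,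
      Finset.sum_apply, PiLp.smul_apply, op_apply, smul_eq_mul]
    rw [Finset.sum_comm]
    refine Finset.sum_congr rfl fun l _ => ?_
    rw [Matrix.mul_apply]
    simp only [Matrix.mul_apply, transpose_apply, hx, hξ, Finset.sum_mul, Finset.mul_sum]
    rw [Finset.sum_comm]
    refine Finset.sum_congr rfl fun b _ => Finset.sum_congr rfl fun d _ => ?_
    ring
  have hn2 : ∑ a, ‖∑ b, (x.map (uF C)) a b (ξ b)‖ ^ 2 = ((j : ℝ) + 1) ^ 2 * (n.choose (j + 1) : ℝ) := by
    simp only [hT, norm_smul, mul_pow]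
    rw [← Finset.mul_sum]
    congr 1
    · have : ‖(j : ℂ) + 1‖ = (j : ℝ) + 1 := by
        rw [show (j : ℂ) + 1 = ((j + 1 : ℕ) : ℂ) by push_cast; ring, Complex.norm_natCast]
        push_cast; ring
      rw [this]
    · rw [← h.trace (j + 1)]
      refine Finset.sum_congr rfl fun a _ => ?_
      rw [EuclideanSpace.norm_sq_eq]
  refine opNorm_ge _ ξ ?_ ?_
  · rw [hn1]
    exact_mod_cast Nat.choose_pos hj.le
  · rw [hn1, hn2]
    have e := Nat.choose_succ_right_eq n j
    have e' : (n.choose (j + 1) : ℝ) * ((j : ℝ) + 1) = (n.choose j : ℝ) * ((n : ℝ) - j) := by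
      have := congrArg (Nat.cast : ℕ → ℝ) e
      push_cast [Nat.cast_sub hj.le] at this
      exact this
    apply le_of_eq
    calc ((j : ℝ) + 1) * ((n : ℝ) - j) * (n.choose j : ℝ)
        = ((j : ℝ) + 1) * ((n.choose j : ℝ) * ((n : ℝ) - j)) := by ring
      _ = ((j : ℝ) + 1) ^ 2 * (n.choose (j + 1) : ℝ) := by rw [← e']; ring

end Pool.Agent.Helper547.Alpha
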