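import Mathlib
import Pool.Agent.Helper547.Alpha.Tensor

set_option autoImplicit false
set_option linter.unusedSectionVars false

open scoped InnerProductSpace

open Finset ComplexConjugate Filter Topology
open scoped Matrix.Norms.L2Operator ComplexOrder
open Matrix

namespace Pool.Agent.Helper547.Alpha

section
variable {ι : Type} [Fintype ι] {K : Type*} [NormedAddCommGroup K] [InnerProductSpace ℂ K]

lemma normsq_expandG (z : ι → ℂ) (y : ι → K) :
    ((‖∑ i, z i • y i‖ ^ 2 : ℝ) : ℂ) = ∑ i, ∑ j, (z j * conj (z i)) * inner ℂ (y i) (y j) := by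
  have h := inner_self_eq_norm_sq_to_K (𝕜 := ℂ) (∑ i, z i • y i)
  rw [sum_inner] at h
  push_cast
  rw [← Complex.coe_algebraMap]
  rw [← h]
  refine Finset.sum_congr rfl fun i _ => ?_
  rw [inner_sum]
  refine Finset.sum_congr rfl fun j _ => ?_
  rw [inner_smul_left, inner_smul_right]
  ring

end

section
variable {ι : Type} [Fintype ι] [DecidableEq ι] {H : Type*} [NormedAddCommGroup H] [InnerProductSpace ℂ H]


/-- Gram expansion for a scalar matrix acting on vectors of a Hilbert space -/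
lemma sum_norm_sq_gramG {κ : Type} [Fintype κ] (M : Matrix κ ι ℂ) (ξ : ι → H) :
    ((∑ i, ‖∑ j, M i j • ξ j‖ ^ 2 : ℝ) : ℂ) = ∑ j, ∑ k, (Mᴴ * M) j k * ⟪ξ j, ξ k⟫_ℂ := by
  rw [Complex.ofReal_sum]
  have h : ∀ i : κ, ((‖∑ j, M i j • ξ j‖ ^ 2 : ℝ) : ℂ) = ∑ j, ∑ k, (M i k * conj (M i j)) * ⟪ξ j, ξ k⟫_ℂ :=
    fun i => normsq_expandG (fun j => M i j) ξ
  simp only [h]
  rw [Finset.sum_comm]
  refine Finset.sum_congr rfl fun j _ => ?_
  rw [Finset.sum_comm]
  refine Finset.sum_congr rfl fun k _ => ?_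
  rw [← Finset.sum_mul]
  congr 1
  rw [Matrix.mul_apply]
  refine Finset.sum_congr rfl fun i _ => ?_
  rw [conjTranspose_apply, RCLike.star_def, mul_comm]

lemma mat_vec_leG (M : Matrix ι ι ℂ) (ξ : ι → H) :
    ∑ i, ‖∑ j, M i j • ξ j‖ ^ 2 ≤ ‖M‖ ^ 2 * ∑ j, ‖ξ j‖ ^ 2 := by
  have hpsd := psd_of_norm_le (norm_nonneg M) (le_refl ‖M‖)
  obtain ⟨B, hB⟩ := exists_factor hpsd
  have h1 := sum_norm_sq_gramG M ξ
  have h2 := sum_norm_sq_gramG B ξ
  have h3 : ((∑ i, ‖∑ j, B i j • ξ j‖ ^ 2 : ℝ) : ℂ) =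
      ((‖M‖ ^ 2 * ∑ j, ‖ξ j‖ ^ 2 - ∑ i, ‖∑ j, M i j • ξ j‖ ^ 2 : ℝ) : ℂ) := by
    rw [h2, hB, Complex.ofReal_sub, h1]
    simp only [Matrix.sub_apply, sub_mul, Finset.sum_sub_distrib]
    congr 1
    push_cast
    rw [Finset.mul_sum]
    refine Finset.sum_congr rfl fun j _ => ?_
    rw [Finset.sum_eq_single j]
    · rw [Matrix.smul_apply, Matrix.one_apply_eq, inner_self_eq_norm_sq_to_K]
      simp
    · intro k _ hk
      rw [Matrix.smul_apply, Matrix.one_apply_ne (Ne.symm hk)]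
      simp
    · simp
  have h4 : ∑ i, ‖∑ j, B i j • ξ j‖ ^ 2 = ‖M‖ ^ 2 * ∑ j, ‖ξ j‖ ^ 2 - ∑ i, ‖∑ j, M i j • ξ j‖ ^ 2 := by
    exact_mod_cast h3
  have h5 : 0 ≤ ∑ i, ‖∑ j, B i j • ξ j‖ ^ 2 := Finset.sum_nonneg fun i _ => by positivity
  linarith

/-- the Hilbert sum of `m` copies of `H` -/
abbrev HKG (ι : Type) [Fintype ι] (H : Type*) [NormedAddCommGroup H] [InnerProductSpace ℂ H] : Type _ :=
  PiLp 2 (fun _ : ι => H)

lemma hk_norm_sqG (ξ : HKG ι H) : ‖ξ‖ ^ 2 = ∑ i, ‖ξ i‖ ^ 2 := by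
  rw [PiLp.norm_sq_eq_of_L2]

/-- scalar matrix acting on `H^m` -/
noncomputable def matOpG (H : Type*) [NormedAddCommGroup H] [InnerProductSpace ℂ H]
    (M : Matrix ι ι ℂ) : HKG ι H →L[ℂ] HKG ι H :=
  LinearMap.mkContinuous
    { toFun := fun ξ => WithLp.toLp 2 (fun i => ∑ j, M i j • ξ j)
      map_add' := by
        intro ξ η
        ext i
        simp [Finset.sum_add_distrib]
      map_smul' := by
        intro c ξ
        ext i
        simp [Finset.smul_sum, smul_smul, mul_comm] } ‖M‖ (by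
    intro ξ
    have h := mat_vec_leG M (fun j => ξ j)
    have h2 : ‖(WithLp.toLp 2 (fun i => ∑ j, M i j • ξ j) : HKG ι H)‖ ^ 2 ≤ (‖M‖ * ‖ξ‖) ^ 2 := by
      rw [hk_norm_sqG, mul_pow, hk_norm_sqG]
      exact h
    exact le_of_sq_le_sq h2 (by positivity))

lemma matOpG_apply (M : Matrix ι ι ℂ) (ξ : HKG ι H) (i : ι) :
    matOpG H M ξ i = ∑ j, M i j • ξ j := rfl

lemma matOpG_norm_le (M : Matrix ι ι ℂ) : ‖matOpG H M‖ ≤ ‖M‖ :=
  LinearMap.mkContinuous_norm_le _ (norm_nonneg _) _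

/-- diagonal action of an operator on `H^m` -/
noncomputable def diagOpG (ι : Type) [Fintype ι] [DecidableEq ι] (b : H →L[ℂ] H) : HKG ι H →L[ℂ] HKG ι H :=
  LinearMap.mkContinuous
    { toFun := fun ξ => WithLp.toLp 2 (fun i => b (ξ i))
      map_add' := by
        intro ξ η
        ext i
        simp
      map_smul' := by
        intro c ξ
        ext i
        simp } ‖b‖ (by
    intro ξ
    have h2 : ‖(WithLp.toLp 2 (fun i => b (ξ i)) : HKG ι H)‖ ^ 2 ≤ (‖b‖ * ‖ξ‖) ^ 2 := by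
      rw [hk_norm_sqG, mul_pow, hk_norm_sqG, Finset.mul_sum]
      refine Finset.sum_le_sum fun i _ => ?_
      calc ‖b (ξ i)‖ ^ 2 ≤ (‖b‖ * ‖ξ i‖) ^ 2 := by gcongr; exact b.le_opNorm _
        _ = _ := by ring
    exact le_of_sq_le_sq h2 (by positivity))

lemma diagOpG_apply (b : H →L[ℂ] H) (ξ : HKG ι H) (i : ι) : diagOpG ι b ξ i = b (ξ i) := rfl

lemma diagOpG_norm_le (b : H →L[ℂ] H) : ‖diagOpG ι b‖ ≤ ‖b‖ :=
  LinearMap.mkContinuous_norm_le _ (norm_nonneg _) _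

lemma mat_diag_commG (M : Matrix ι ι ℂ) (b : H →L[ℂ] H) :
    matOpG H M * diagOpG ι b = diagOpG ι b * matOpG H M := by
  ext ξ i
  change ∑ j, M i j • b (ξ j) = b (∑ j, M i j • ξ j)
  rw [map_sum]
  simp

lemma diagOpG_sum {n : ℕ} (z : Fin n → ℂ) (b : Fin n → H →L[ℂ] H) :
    diagOpG ι (∑ i, z i • b i) = ∑ i, z i • diagOpG ι (b i) := by
  ext ξ i
  rw [diagOpG_apply]
  simp [_root_.sum_apply, diagOpG_apply]

lemma matOpG_sum {n : ℕ} (z : Fin n → ℂ) (M : Fin n → Matrix ι ι ℂ) :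
    matOpG H (∑ i, z i • M i) = ∑ i, z i • matOpG H (M i) := by
  ext ξ i
  rw [matOpG_apply]
  simp only [_root_.sum_apply, _root_.smul_apply, WithLp.ofLp_sum, Finset.sum_apply, PiLp.smul_apply,
    matOpG_apply, Matrix.sum_apply, Matrix.smul_apply, Finset.sum_smul, Finset.smul_sum, smul_smul, smul_eq_mul]
  rw [Finset.sum_comm]

section
variable [CompleteSpace H]

lemma diagOpG_star (b : H →L[ℂ] H) : star (diagOpG ι b) = diagOpG ι (star b) := by
  rw [ContinuousLinearMap.star_eq_adjoint, ContinuousLinearMap.star_eq_adjoint]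
  symm
  rw [ContinuousLinearMap.eq_adjoint_iff]
  intro x y
  rw [PiLp.inner_apply, PiLp.inner_apply]
  refine Finset.sum_congr rfl fun i _ => ?_
  rw [diagOpG_apply, diagOpG_apply, ContinuousLinearMap.adjoint_inner_left]

lemma matOpG_star (M : Matrix ι ι ℂ) : star (matOpG H M) = matOpG H Mᴴ := by
  rw [ContinuousLinearMap.star_eq_adjoint]
  symm
  rw [ContinuousLinearMap.eq_adjoint_iff]
  intro x y
  rw [PiLp.inner_apply, PiLp.inner_apply]
  simp only [matOpG_apply, sum_inner, inner_sum, inner_smul_left, inner_smul_right, conjTranspose_apply]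
  rw [Finset.sum_comm]
  simp

end

end

end Pool.Agent.Helper547.Alpha
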