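import Mathlib
import Pool.Agent.Helper547.Alpha.TensorG
import Pool.Agent.Helper547.Alpha.Upper

set_option autoImplicit false
set_option linter.unusedSectionVars false

open scoped InnerProductSpace

open Finset ComplexConjugate Filter Topology
open scoped Matrix.Norms.L2Operator ComplexOrder
open Matrix

namespace Pool.Agent.Helper547.Alpha

section
variable {ι : Type} [Fintype ι] [DecidableEq ι]

lemma mulVec_fromBlocks_norm (M : Matrix ι ι ℂ) (hM : ‖M‖ ≤ 1) :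
    ‖(fromBlocks 0 M Mᴴ 0 : Matrix (ι ⊕ ι) (ι ⊕ ι) ℂ)‖ ≤ 1 := by
  rw [l2_le_iff _ zero_le_one]
  intro x
  have h1 := (l2_le_iff M zero_le_one).1 hM (fun i => x (Sum.inr i))
  have hM' : ‖Mᴴ‖ ≤ 1 := by rwa [Matrix.l2_opNorm_conjTranspose]
  have h2 := (l2_le_iff Mᴴ zero_le_one).1 hM' (fun i => x (Sum.inl i))
  rw [Fintype.sum_sum_type, Fintype.sum_sum_type]
  have e1 : ∀ i, ((fromBlocks 0 M Mᴴ 0 : Matrix (ι ⊕ ι) (ι ⊕ ι) ℂ) *ᵥ x) (Sum.inl i) =
      (M *ᵥ (fun i => x (Sum.inr i))) i := by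
    intro i
    simp [Matrix.mulVec, dotProduct, Fintype.sum_sum_type]
  have e2 : ∀ i, ((fromBlocks 0 M Mᴴ 0 : Matrix (ι ⊕ ι) (ι ⊕ ι) ℂ) *ᵥ x) (Sum.inr i) =
      (Mᴴ *ᵥ (fun i => x (Sum.inl i))) i := by
    intro i
    simp [Matrix.mulVec, dotProduct, Fintype.sum_sum_type]
  simp only [e1, e2]
  linarith

open scoped MatrixOrder in
/-- every contractive matrix is a corner of a unitary matrix of twice the size -/
lemma exists_unitary_dilation (M : Matrix ι ι ℂ) (hM : ‖M‖ ≤ 1) :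
    ∃ V : Matrix (ι ⊕ ι) (ι ⊕ ι) ℂ, Vᴴ * V = 1 ∧ V * Vᴴ = 1 ∧ ∀ i j, V (Sum.inl i) (Sum.inl j) = M i j := by
  set X : Matrix (ι ⊕ ι) (ι ⊕ ι) ℂ := fromBlocks 0 M Mᴴ 0 with hX
  have hXn : ‖X‖ ≤ 1 := mulVec_fromBlocks_norm M hM
  have hXsa : IsSelfAdjoint X := by
    rw [IsSelfAdjoint, hX, star_eq_conjTranspose, fromBlocks_conjTranspose]
    simp
  have hU := hXsa.self_add_I_smul_cfcSqrt_sub_sq_mem_unitary X hXn
  set Y := CFC.sqrt (1 - X ^ 2) with hY
  set σ : Matrix (ι ⊕ ι) (ι ⊕ ι) ℂ := fromBlocks 0 1 1 0 with hσ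
  set τ : Matrix (ι ⊕ ι) (ι ⊕ ι) ℂ := fromBlocks 1 0 0 (-1) with hτ
  have hσσ : σ * σ = 1 := by
    rw [hσ, fromBlocks_multiply]; simp
  have hσh : σᴴ = σ := by
    rw [hσ, fromBlocks_conjTranspose]; simp
  -- Y is block diagonal
  have hcomm : Commute (1 - X ^ 2) τ := by
    have h1 : X * τ = -(τ * X) := by
      rw [hX, hτ, fromBlocks_multiply, fromBlocks_multiply, fromBlocks_neg]
      simp
    have h2 : Commute (X ^ 2) τ := by
      rw [Commute, SemiconjBy, sq, mul_assoc, h1, mul_neg, ← mul_assoc, h1, neg_mul, neg_neg, mul_assoc]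
    exact (Commute.one_left τ).sub_left h2
  have hYτ : Commute Y τ := by
    rw [hY, CFC.sqrt]
    exact hcomm.cfcₙ_nnreal _
  have hY12 : ∀ i j, Y (Sum.inl i) (Sum.inr j) = 0 := by
    intro i j
    have h1 := congrFun (congrFun hYτ.eq (Sum.inl i)) (Sum.inr j)
    rw [Matrix.mul_apply, Matrix.mul_apply, Fintype.sum_sum_type, Fintype.sum_sum_type] at h1
    simp only [hτ, fromBlocks_apply₁₁, fromBlocks_apply₁₂, fromBlocks_apply₂₁, fromBlocks_apply₂₂,
      Matrix.zero_apply, Matrix.neg_apply, Matrix.one_apply, mul_zero, zero_mul, Finset.sum_const_zero,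
      zero_add, add_zero] at h1
    simp at h1
    have h3 : (2 : ℂ) * Y (Sum.inl i) (Sum.inr j) = 0 := by
      linear_combination -h1
    simpa using h3
  refine ⟨(X + Complex.I • Y) * σ, ?_, ?_, ?_⟩
  · have h1 := Unitary.star_mul_self_of_mem hU
    rw [star_eq_conjTranspose] at h1
    rw [conjTranspose_mul, hσh, mul_assoc, ← mul_assoc (X + Complex.I • Y)ᴴ, h1, one_mul, hσσ]
  · have h1 := Unitary.mul_star_self_of_mem hU
    rw [star_eq_conjTranspose] at h1
    rw [conjTranspose_mul, hσh, mul_assoc, ← mul_assoc σ, hσσ, one_mul, h1]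
  · intro i j
    rw [Matrix.mul_apply, Fintype.sum_sum_type]
    simp only [hσ, fromBlocks_apply₁₁, fromBlocks_apply₂₁, Matrix.zero_apply, mul_zero,
      Finset.sum_const_zero, zero_add, Matrix.one_apply]
    simp [hX, hY12]

end

section
variable {n : ℕ}
variable {K : Type*} [NormedAddCommGroup K] [InnerProductSpace ℂ K] [CompleteSpace K]

/-- the sharp estimate for unitary coefficients -/
theorem core_unitary (hn : 0 < n) (a b : Fin n → K →L[ℂ] K) (hab : ∀ i j, a i * b j = b j * a i)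
    (hab' : ∀ i j, a i * star (b j) = star (b j) * a i)
    (ha : ∀ z : Fin n → ℂ, (∀ i, ‖z i‖ ≤ 1) → ‖∑ i, z i • a i‖ ≤ 1)
    (hb : ∀ i, star (b i) * b i = 1) (hb' : ∀ i, b i * star (b i) = 1) :
    ‖∑ i, a i * b i‖ ≤ n / Real.sqrt (2 * n - 1) := by
  have hn' : (1 : ℝ) ≤ n := by exact_mod_cast hn
  have hpos : (0 : ℝ) < 2 * n - 1 := by linarith
  have hs : 0 < Real.sqrt (2 * n - 1) := Real.sqrt_pos.mpr hpos
  apply ContinuousLinearMap.opNorm_le_bound _ (by positivity)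
  intro η
  set T := ∑ i, a i * b i with hT
  have h := linf_est a b hab hab' ha (T η) η
  have e1 : ∑ j, star (b j) * b j = (n : ℂ) • (1 : K →L[ℂ] K) := by
    simp only [hb]
    simp [Nat.cast_smul_eq_nsmul]
  have e2 : ∑ j, b j * star (b j) = (n : ℂ) • (1 : K →L[ℂ] K) := by
    simp only [hb']
    simp [Nat.cast_smul_eq_nsmul]
  have e3 : ∑ l, a l * (b l * (star (b l) * b l)) = T := by
    rw [hT]
    refine Finset.sum_congr rfl fun l _ => ?_
    rw [hb, mul_one]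
  have hiso : ∀ l (v : K), ‖b l v‖ = ‖v‖ := by
    intro l v
    have h1 : ‖b l v‖ ^ 2 = ‖v‖ ^ 2 := by
      rw [← inner_self_eq_norm_sq (𝕜 := ℂ), ← inner_self_eq_norm_sq (𝕜 := ℂ)]
      congr 1
      rw [← ContinuousLinearMap.adjoint_inner_right]
      change ⟪v, (star (b l) * b l) v⟫_ℂ = _
      rw [hb]; rfl
    exact (sq_eq_sq₀ (norm_nonneg _) (norm_nonneg _)).1 h1
  have hiso' : ∀ l (v : K), ‖star (b l) v‖ = ‖v‖ := by
    intro l v
    have h1 : ‖star (b l) v‖ ^ 2 = ‖v‖ ^ 2 := by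
      rw [← inner_self_eq_norm_sq (𝕜 := ℂ), ← inner_self_eq_norm_sq (𝕜 := ℂ)]
      congr 1
      rw [ContinuousLinearMap.star_eq_adjoint, ContinuousLinearMap.adjoint_inner_left]
      change ⟪v, (b l * star (b l)) v⟫_ℂ = _
      rw [hb']; rfl
    exact (sq_eq_sq₀ (norm_nonneg _) (norm_nonneg _)).1 h1
  have hinv : ∀ l (v : K), star (b l) (b l v) = v := by
    intro l v
    change (star (b l) * b l) v = v
    rw [hb]; rfl
  rw [e1, e2, ← hT, e3] at h
  have e4 : (T * ((n : ℂ) • (1 : K →L[ℂ] K)) + ((n : ℂ) • (1 : K →L[ℂ] K)) * T - T) =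
      ((2 * n - 1 : ℝ) : ℂ) • T := by
    rw [mul_smul_comm, smul_mul_assoc, mul_one, one_mul]
    push_cast
    rw [sub_smul, mul_smul, two_smul, one_smul, ← add_smul]
  rw [e4] at h
  simp only [hiso, hiso', hinv] at h
  rw [_root_.smul_apply, inner_smul_right, norm_mul, Complex.norm_real, Real.norm_of_nonneg hpos.le,
    inner_self_eq_norm_sq_to_K] at h
  have e5 : ‖((‖T η‖ : ℂ)) ^ 2‖ = ‖T η‖ ^ 2 := by
    rw [norm_pow, Complex.norm_real, norm_norm]
  have e6 : ‖∑ _l : Fin n, η‖ ^ 2 + ∑ _l : Fin n, ∑ _j : Fin n, ‖η‖ ^ 2 - ∑ _l : Fin n, ‖η‖ ^ 2 =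
      (n * (2 * n - 1)) * ‖η‖ ^ 2 := by
    simp only [Finset.sum_const, Finset.card_univ, Fintype.card_fin, nsmul_eq_mul]
    rw [← Nat.cast_smul_eq_nsmul ℂ, norm_smul, Complex.norm_natCast]
    ring
  have e7 : ∑ _i : Fin n, ‖T η‖ ^ 2 = n * ‖T η‖ ^ 2 := by
    simp
  rw [e6, e7] at h
  change (2 * (n : ℝ) - 1) * ‖((‖T η‖ : ℂ)) ^ 2‖ ≤ _ at h
  rw [e5, Real.sqrt_mul (by positivity), Real.sqrt_mul (by positivity), Real.sqrt_mul (by positivity),
    Real.sqrt_sq (norm_nonneg _), Real.sqrt_sq (norm_nonneg _)] at h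
  have h8 : Real.sqrt n * Real.sqrt n = n := Real.mul_self_sqrt (by positivity)
  have h9 : Real.sqrt (2 * n - 1) * Real.sqrt (2 * n - 1) = 2 * n - 1 := Real.mul_self_sqrt hpos.le
  rw [div_mul_eq_mul_div, le_div_iff₀ hs]
  rcases (norm_nonneg (T η)).eq_or_lt with h0 | h0
  · rw [← h0, zero_mul]; positivity
  · have h10 : (Real.sqrt (2 * n - 1) * ‖T η‖) * (Real.sqrt (2 * n - 1) * ‖T η‖) ≤
        (Real.sqrt (2 * n - 1) * ‖T η‖) * (n * ‖η‖) := by
      calc _ = (Real.sqrt (2 * n - 1) * Real.sqrt (2 * n - 1)) * ‖T η‖ ^ 2 := by ring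
        _ = (2 * n - 1) * ‖T η‖ ^ 2 := by rw [h9]
        _ ≤ _ := h
        _ = (Real.sqrt n * Real.sqrt n) * (Real.sqrt (2 * n - 1)) * ‖T η‖ * ‖η‖ := by ring
        _ = _ := by rw [h8]; ring
    have h11 := le_of_mul_le_mul_left h10 (by positivity)
    linarith

end

section
variable {ι : Type} [Fintype ι] [DecidableEq ι] {H : Type*} [NormedAddCommGroup H] [InnerProductSpace ℂ H]

lemma matOpG_mul (M N : Matrix ι ι ℂ) : matOpG H M * matOpG H N = matOpG H (M * N) := by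
  ext ξ i
  change ∑ j, M i j • (∑ k, N j k • ξ k) = ∑ k, (M * N) i k • ξ k
  simp only [Matrix.mul_apply, Finset.sum_smul, Finset.smul_sum, smul_smul]
  rw [Finset.sum_comm]

lemma matOpG_one : matOpG H (1 : Matrix ι ι ℂ) = 1 := by
  ext ξ i
  change ∑ j, (1 : Matrix ι ι ℂ) i j • ξ j = ξ i
  simp [Matrix.one_apply]

end

theorem ub_linf_sharp (n : ℕ) (hn : 0 < n) : UB (Fin n → ℂ) (n / Real.sqrt (2 * n - 1)) := by
  intro m x hx H _ _ _ u hu
  set M : Fin n → Matrix (Fin m) (Fin m) ℂ := fun l => Matrix.of fun i j => x i j l with hM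
  set e : Fin n → (Fin n → ℂ) := fun l => Pi.single l 1 with he
  have hxe : ∀ i j, x i j = ∑ l, M l i j • e l := by
    intro i j
    ext k
    simp [hM, he, Pi.single_apply]
  have hM1 : ∀ l, ‖M l‖ ≤ 1 := by
    intro l
    have h1 := map_le_of_minNorm hx (ContinuousLinearMap.proj l) (by
      apply ContinuousLinearMap.opNorm_le_bound _ zero_le_one
      intro v
      rw [one_mul]
      exact norm_le_pi_norm v l)
    exact h1
  choose V hV1 hV2 hV3 using fun l => exists_unitary_dilation (M l) (hM1 l)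
  have hC : (0 : ℝ) ≤ n / Real.sqrt (2 * n - 1) := by positivity
  have hT : ‖∑ l, diagOpG (Fin m ⊕ Fin m) (u (e l)) * matOpG H (V l)‖ ≤ n / Real.sqrt (2 * n - 1) := by
    apply core_unitary hn
    · intro i j; exact (mat_diag_commG _ _).symm
    · intro i j; rw [matOpG_star]; exact (mat_diag_commG _ _).symm
    · intro z hz
      rw [← diagOpG_sum]
      refine (diagOpG_norm_le _).trans ?_
      have e1 : ∑ i, z i • u (e i) = u z := by
        have : z = ∑ i, z i • e i := by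
          ext k; simp [he, Pi.single_apply]
        conv_rhs => rw [this, map_sum]
        simp
      rw [e1]
      have hz1 : ‖z‖ ≤ 1 := (pi_norm_le_iff_of_nonneg zero_le_one).2 hz
      calc ‖u z‖ ≤ ‖u‖ * ‖z‖ := u.le_opNorm _
        _ ≤ 1 * 1 := by gcongr
        _ = 1 := one_mul _
    · intro l
      rw [matOpG_star, matOpG_mul, hV1, matOpG_one]
    · intro l
      rw [matOpG_star, matOpG_mul, hV2, matOpG_one]
  apply opNorm_le hC
  intro ξ
  set T := ∑ l, diagOpG (Fin m ⊕ Fin m) (u (e l)) * matOpG H (V l) with hTdef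
  set ζ : HKG (Fin m ⊕ Fin m) H := WithLp.toLp 2 (Sum.elim ξ (fun _ => 0)) with hζ
  have e1 : ∀ i, ∑ j, (x.map u) i j (ξ j) = T ζ (Sum.inl i) := by
    intro i
    simp only [Matrix.map_apply, hxe, map_sum, map_smul, _root_.sum_apply, _root_.smul_apply, hTdef,
      WithLp.ofLp_sum, Finset.sum_apply]
    rw [Finset.sum_comm]
    refine Finset.sum_congr rfl fun l _ => ?_
    change _ = u (e l) (∑ j, V l (Sum.inl i) j • ζ j)
    rw [Fintype.sum_sum_type, map_add, map_sum, map_sum]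
    have e3 : ∀ j : Fin m, u (e l) (V l (Sum.inl i) (Sum.inr j) • ζ (Sum.inr j)) = 0 := by
      intro j
      rw [hζ]; simp
    simp only [e3, Finset.sum_const_zero, add_zero]
    refine Finset.sum_congr rfl fun j _ => ?_
    rw [map_smul, hV3]
    rfl
  simp only [e1]
  have e2 : ∑ j, ‖ξ j‖ ^ 2 = ‖ζ‖ ^ 2 := by
    rw [hk_norm_sqG, Fintype.sum_sum_type]
    simp [hζ]
  have e4 : ∑ i, ‖T ζ (Sum.inl i)‖ ^ 2 ≤ ‖T ζ‖ ^ 2 := by
    rw [hk_norm_sqG, Fintype.sum_sum_type]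
    have : 0 ≤ ∑ i, ‖T ζ (Sum.inr i)‖ ^ 2 := Finset.sum_nonneg fun i _ => by positivity
    linarith
  rw [e2, ← mul_pow]
  refine e4.trans ?_
  gcongr
  exact (ContinuousLinearMap.le_opNorm _ _).trans (by gcongr)

end Pool.Agent.Helper547.Alpha
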